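import Mathlib

/-!
# Cluster algebras and Caldero-Chapoton algebras of quivers with potential

All the definitions needed for the statement: finite quivers, potentials in the completed path
algebra (over `ℂ`), cyclic derivatives, nilpotent modules over the Jacobian algebra, `g`-vectors,
quiver Grassmannians and their topological Euler characteristic, Caldero-Chapoton functions, the
Caldero-Chapoton algebra, the cluster algebra, and the mutation of quivers with potential of
Derksen-Weyman-Zelevinsky together with non-degeneracy.

Conventions.  A word in the arrows is a list; the path `[a₁, …, a_d]` first travels along `a₁`,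
then along `a₂`, and so on.  An element of the completed path algebra is a function from words to
`ℂ` (the coefficient function of a possibly infinite linear combination of paths).
-/

open scoped BigOperators
open CategoryTheory

noncomputable section

namespace Pool.Agent.CCAlg

/-! ## Quivers -/

/-- A quiver with vertex set `V` and finitely many arrows. -/
structure FinQuiver (V : Type) where
  /-- the set of arrows -/
  Arrow : Type
  /-- there are only finitely many arrows -/
  finite : Finite Arrow
  /-- the starting vertex of an arrow -/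
  src : Arrow → V
  /-- the terminal vertex of an arrow -/
  tgt : Arrow → V

variable {V : Type}

namespace FinQuiver

/-- A quiver is 2-acyclic if it has no loops and no oriented 2-cycles. -/
def TwoAcyclic (Q : FinQuiver V) : Prop :=
  (∀ a, Q.src a ≠ Q.tgt a) ∧ ∀ a b, ¬ (Q.tgt a = Q.src b ∧ Q.tgt b = Q.src a)

/-- The number of arrows `i → j`. -/
def num (Q : FinQuiver V) (i j : V) : ℕ := Nat.card {a : Q.Arrow // Q.src a = i ∧ Q.tgt a = j}

/-- The exchange matrix `B_Q`: `b i j` is the number of arrows `j → i` minus the number of arrows
`i → j`. -/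
def bmat (Q : FinQuiver V) : Matrix V V ℤ := fun i j => (Q.num j i : ℤ) - (Q.num i j : ℤ)

/-- The word `w` is a path from `i` to `j`. -/
inductive IsPath (Q : FinQuiver V) : V → List Q.Arrow → V → Prop
  | nil (i : V) : IsPath Q i [] i
  | cons (a : Q.Arrow) (w : List Q.Arrow) (j : V) :
      IsPath Q (Q.tgt a) w j → IsPath Q (Q.src a) (a :: w) j

/-- The word `w` is a cyclic path (of positive length). -/
def IsCycle (Q : FinQuiver V) (w : List Q.Arrow) : Prop :=
  w ≠ [] ∧ ∃ i, Q.IsPath i w i

end FinQuiver

/-! ## Potentials -/

/-- A potential of `Q`: a possibly infinite linear combination of cyclic paths, i.e. an element of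
the completed path algebra of `Q` over `ℂ` all of whose terms are cyclic paths. -/
structure Potential (Q : FinQuiver V) where
  /-- the coefficient of a word -/
  coeff : List Q.Arrow → ℂ
  /-- only cyclic paths occur -/
  isCycle : ∀ w, coeff w ≠ 0 → Q.IsCycle w

/-- The sum of the coefficients of `f` over the `|w|` rotations of the word `w`. -/
def cyc {α : Type} (f : List α → ℂ) (w : List α) : ℂ :=
  ∑ k ∈ Finset.range w.length, f (w.rotate k)

/-- Two formal linear combinations of cyclic paths are cyclically equivalent if their difference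
lies in the closure of the span of the elements `a₁a₂⋯a_d - a₂⋯a_da₁`, i.e. if their sums over the
rotations of every word agree. -/
def CycEquiv {α : Type} (f g : List α → ℂ) : Prop := ∀ w, cyc f w = cyc g w

/-- The cyclic derivative `∂_b W`, where
`∂_b (a₁⋯a_d) = ∑_{a_k = b} a_{k+1}⋯a_d a₁⋯a_{k-1}`.  The coefficient of the word `p` in `∂_b W` is
the sum of the coefficients of `W` over the rotations of the word `b p`. -/
def Potential.deriv {Q : FinQuiver V} (W : Potential Q) (b : Q.Arrow) (p : List Q.Arrow) : ℂ :=
  cyc W.coeff (b :: p)

/-! ## Representations -/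

/-- A finite-dimensional representation `M = ⊕_i M_i` of `Q`, in coordinates: a basis of `M` with
`size` elements, each of which lies in one of the spaces `M_i`, and for every arrow `a` the matrix
of its action on `M`, which maps `M_(src a)` to `M_(tgt a)` and is zero on the other `M_i`. -/
structure Rep (Q : FinQuiver V) where
  /-- the dimension of `M` -/
  size : ℕ
  /-- the vertex of a basis vector -/
  vert : Fin size → V
  /-- the matrices of the arrows -/
  mat : Q.Arrow → Matrix (Fin size) (Fin size) ℂ
  /-- the arrow `a` acts from `M_(src a)` to `M_(tgt a)` -/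
  supp : ∀ a r s, mat a r s ≠ 0 → vert s = Q.src a ∧ vert r = Q.tgt a

namespace Rep

variable {Q : FinQuiver V} (M : Rep Q)

/-- The action of a word on a vector (zero if the word is not a path). -/
def act (w : List Q.Arrow) (x : Fin M.size → ℂ) : Fin M.size → ℂ :=
  w.foldl (fun y a => (M.mat a).mulVec y) x

/-- The representation is nilpotent: all sufficiently long paths act as zero. -/
def Nilpotent : Prop := ∃ N : ℕ, ∀ w : List Q.Arrow, N ≤ w.length → ∀ x s, M.act w x s = 0

/-- The action of a formal linear combination of words on a vector of a nilpotent representation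
(a finite sum, as almost all paths act as zero). -/
def actSeries (f : List Q.Arrow → ℂ) (x : Fin M.size → ℂ) (s : Fin M.size) : ℂ :=
  ∑ᶠ w, f w * M.act w x s

/-- `M` is a (finite-dimensional) nilpotent module over the Jacobian algebra of `(Q, W)`: it is
nilpotent, and all cyclic derivatives of `W` act as zero. -/
def IsModule (W : Potential Q) : Prop :=
  M.Nilpotent ∧ ∀ b x s, M.actSeries (W.deriv b) x s = 0

/-- The dimension of `Hom(S_i, M)`, where `S_i` is the simple module at `i`: this is the space of
the vectors of `M_i` that are killed by all arrows. -/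
def homDim (i : V) : ℕ :=
  Set.finrank ℂ {x : Fin M.size → ℂ |
    (∀ s, M.vert s ≠ i → x s = 0) ∧ ∀ a s, (M.mat a).mulVec x s = 0}

/-- The space of cocycles describing the extensions `0 → M → E → S_i → 0` of modules over the
Jacobian algebra. The space of `E` is `M ⊕ ℂ e` with `e` a vector at the vertex `i`, and an arrow
`a` with `src a = i` sends `e` to `ξ a ∈ M_(tgt a)`. The element `∂_b W` acts on `e` as
`∑_a ∑_w (coefficient of a w in ∂_b W) • w (ξ a)`, and this has to be zero for every `b`. -/
def cocycles (W : Potential Q) (i : V) : Set (Q.Arrow → Fin M.size → ℂ) :=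
  {ξ | (∀ a s, ξ a s ≠ 0 → Q.src a = i ∧ M.vert s = Q.tgt a) ∧
    ∀ b s, ∑ᶠ a, M.actSeries (fun w => W.deriv b (a :: w)) (ξ a) s = 0}

/-- The space of coboundaries: the cocycles `a ↦ a m` with `m ∈ M_i`, which describe the split
extensions. -/
def coboundaries (i : V) : Set (Q.Arrow → Fin M.size → ℂ) :=
  {ξ | ∃ m : Fin M.size → ℂ, (∀ s, M.vert s ≠ i → m s = 0) ∧ ∀ a, ξ a = (M.mat a).mulVec m}

/-- The dimension of `Ext¹(S_i, M)` over the Jacobian algebra: the dimension of the space of
cocycles minus the dimension of its subspace of coboundaries. -/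
def extDim (W : Potential Q) (i : V) : ℤ :=
  (Set.finrank ℂ (M.cocycles W i) : ℤ) - (Set.finrank ℂ (M.coboundaries i) : ℤ)

end Rep

/-- A decorated representation of the Jacobian algebra of `(Q, W)`: a finite-dimensional nilpotent
module together with a tuple of finite-dimensional vector spaces `V_i`, which are recorded by
their dimensions. -/
structure DecRep (Q : FinQuiver V) (W : Potential Q) where
  /-- the module -/
  rep : Rep Q
  /-- it is a nilpotent module over the Jacobian algebra -/
  isMod : rep.IsModule W
  /-- the dimensions of the spaces `V_i` -/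
  decDim : V → ℕ

/-- The `g`-vector `g_i = - dim Hom(S_i, M) + dim Ext¹(S_i, M) + dim V_i`. -/
def DecRep.gvec {Q : FinQuiver V} {W : Potential Q} (D : DecRep Q W) (i : V) : ℤ :=
  -(D.rep.homDim i : ℤ) + D.rep.extDim W i + (D.decDim i : ℤ)

/-! ## Quiver Grassmannians and Euler characteristics -/

/-- The quiver Grassmannian `Gr_e(M)`: the space of the subrepresentations `U` of `M` with dimension
vector `e`.  The linear subspace `U` is given by its orthogonal projection `P` (this is the usual
description of the Grassmannian as a compact space of matrices).  `U` is the direct sum of subspaces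
of the `M_i` iff `P` is block diagonal; the dimension of `U_i` is the trace of the block at `i`; and
`a U ⊆ U` iff `P a P = a P`. -/
def QGr {Q : FinQuiver V} (M : Rep Q) (e : V → ℕ) : Set (Matrix (Fin M.size) (Fin M.size) ℂ) :=
  {P | P * P = P ∧ P.conjTranspose = P ∧ (∀ r s, P r s ≠ 0 → M.vert r = M.vert s) ∧
    (∀ i, ∑ᶠ s : {s // M.vert s = i}, P s s = (e i : ℂ)) ∧
    ∀ a, P * M.mat a * P = M.mat a * P}

/-- The topological Euler characteristic `∑_n (-1)^n dim H_n(X; ℚ)` (singular homology). -/
def eulerChar (X : Type) [TopologicalSpace X] : ℤ :=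
  ∑ᶠ n : ℕ, (-1) ^ n * (Module.finrank ℚ
    (((AlgebraicTopology.singularHomologyFunctor (ModuleCat.{0} ℚ) n).obj (ModuleCat.of ℚ ℚ)).obj
      (TopCat.of X)) : ℤ)

/-! ## The ambient field, Caldero-Chapoton functions and algebras -/

/-- The field `ℂ(x_i : i ∈ V)` of rational functions. It contains the Laurent polynomial ring. -/
abbrev Amb (V : Type) : Type := FractionRing (MvPolynomial V ℂ)

/-- The initial variable `x_i`. -/
def xv (i : V) : Amb V := algebraMap (MvPolynomial V ℂ) (Amb V) (MvPolynomial.X i)

variable [Fintype V]

/-- The Laurent monomial `x^v`. -/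
def monom (v : V → ℤ) : Amb V := ∏ i, xv i ^ v i

/-- The Caldero-Chapoton function
`C(𝓜) = x^g ∑_e χ(Gr_e(M)) x^(B_Q e)`. -/
def DecRep.cc {Q : FinQuiver V} {W : Potential Q} (D : DecRep Q W) : Amb V :=
  monom D.gvec * ∑ᶠ e : V → ℕ, (eulerChar (QGr D.rep e) : Amb V) *
    monom (Q.bmat.mulVec fun j => (e j : ℤ))

/-- The Caldero-Chapoton algebra `A_{Q,W}`: the subalgebra generated by the Caldero-Chapoton
functions of all decorated representations of the Jacobian algebra of `(Q, W)`. -/
def ccAlgebra (Q : FinQuiver V) (W : Potential Q) : Subalgebra ℂ (Amb V) :=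
  Algebra.adjoin ℂ {f | ∃ D : DecRep Q W, f = D.cc}

/-! ## The cluster algebra -/

/-- A seed: a cluster in the ambient field and an exchange matrix. -/
structure Seed (V : Type) where
  /-- the cluster -/
  var : V → Amb V
  /-- the exchange matrix -/
  exch : Matrix V V ℤ

/-- Mutation of a seed at `k` (Fomin-Zelevinsky):
`x_k' = (∏ x_i^{[b_ik]_+} + ∏ x_i^{[-b_ik]_+}) / x_k`, and `b'_ij = -b_ij` if `k ∈ {i, j}`,
`b'_ij = b_ij + [b_ik]_+ [b_kj]_+ - [-b_ik]_+ [-b_kj]_+` otherwise. -/
def Seed.mutate [DecidableEq V] (s : Seed V) (k : V) : Seed V where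
  var := Function.update s.var k
    ((∏ i, s.var i ^ (s.exch i k).toNat + ∏ i, s.var i ^ (-s.exch i k).toNat) / s.var k)
  exch := fun i j => if i = k ∨ j = k then -s.exch i j else
    s.exch i j + max (s.exch i k) 0 * max (s.exch k j) 0
      - max (-s.exch i k) 0 * max (-s.exch k j) 0

/-- The seeds reachable from `s` by iterated mutation. -/
inductive SeedReach [DecidableEq V] (s : Seed V) : Seed V → Prop
  | refl : SeedReach s s
  | step (t : Seed V) (k : V) : SeedReach s t → SeedReach s (t.mutate k)

/-- The cluster algebra `A_Q` with initial seed `(x, B_Q)`: the subalgebra generated by all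
cluster variables. -/
def clusterAlgebra [DecidableEq V] (Q : FinQuiver V) : Subalgebra ℂ (Amb V) :=
  Algebra.adjoin ℂ {u | ∃ t : Seed V, SeedReach ⟨xv, Q.bmat⟩ t ∧ ∃ i, u = t.var i}

omit [Fintype V]

/-! ## Quivers with potential: right equivalence, reduction, mutation, non-degeneracy -/

/-- A quiver with potential. -/
structure QP (V : Type) where
  /-- the quiver -/
  quiver : FinQuiver V
  /-- the potential -/
  pot : Potential quiver

open Classical in
/-- The word `u` as an element of the completed path algebra. -/
def delta {α : Type} (u w : List α) : ℂ := if w = u then 1 else 0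

/-- The product of two formal linear combinations of words. -/
def conv {α : Type} (f g : List α → ℂ) (w : List α) : ℂ :=
  ∑ k ∈ Finset.range (w.length + 1), f (w.take k) * g (w.drop k)

/-- A homomorphism between completed path algebras which is the identity on the vertices. It is
given by the images of the arrows: `a` is sent to a formal linear combination of paths of positive
length from `src a` to `tgt a`. -/
structure PathHom (Q Q' : FinQuiver V) where
  /-- the image of an arrow -/
  img : Q.Arrow → List Q'.Arrow → ℂ
  /-- only paths of positive length from `src a` to `tgt a` occur in the image of `a` -/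
  imgPath : ∀ a w, img a w ≠ 0 → w ≠ [] ∧ Q'.IsPath (Q.src a) w (Q.tgt a)

/-- The image of a word (the product of the images of its letters). -/
def PathHom.onWord {Q Q' : FinQuiver V} (φ : PathHom Q Q') (u : List Q.Arrow) :
    List Q'.Arrow → ℂ :=
  u.foldr (fun a f => conv (φ.img a) f) (delta [])

/-- The image of a formal linear combination of words (for every word `w` of `Q'`, only the finitely
many words `u` of `Q` with `|u| ≤ |w|` contribute). -/
def PathHom.onSeries {Q Q' : FinQuiver V} (φ : PathHom Q Q') (f : List Q.Arrow → ℂ)
    (w : List Q'.Arrow) : ℂ :=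
  ∑ᶠ u, f u * φ.onWord u w

/-- Two quivers with potential are right equivalent if there is an isomorphism `φ` between the
completed path algebras which is the identity on the vertices and such that `φ(W)` is cyclically
equivalent to `W'`. -/
def RightEquiv (P P' : QP V) : Prop :=
  ∃ (φ : PathHom P.quiver P'.quiver) (ψ : PathHom P'.quiver P.quiver),
    (∀ a, ψ.onSeries (φ.img a) = delta [a]) ∧
    (∀ a, φ.onSeries (ψ.img a) = delta [a]) ∧
    CycEquiv (φ.onSeries P.pot.coeff) P'.pot.coeff

/-- The disjoint union of the arrows of two quivers on the same vertex set. -/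
def FinQuiver.disj (Q Q' : FinQuiver V) : FinQuiver V where
  Arrow := Q.Arrow ⊕ Q'.Arrow
  finite := @Finite.instSum _ _ Q.finite Q'.finite
  src := Sum.elim Q.src Q'.src
  tgt := Sum.elim Q.tgt Q'.tgt

theorem FinQuiver.isPath_map_inl (Q Q' : FinQuiver V) (i : V) (w : List Q.Arrow) (j : V)
    (h : Q.IsPath i w j) : (Q.disj Q').IsPath i (w.map Sum.inl : List (Q.Arrow ⊕ Q'.Arrow)) j := by
  induction h with
  | nil i => exact .nil i
  | cons a w j _ ih => exact .cons (Q := Q.disj Q') (Sum.inl a) _ _ ih

theorem FinQuiver.isPath_map_inr (Q Q' : FinQuiver V) (i : V) (w : List Q'.Arrow) (j : V)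
    (h : Q'.IsPath i w j) : (Q.disj Q').IsPath i (w.map Sum.inr : List (Q.Arrow ⊕ Q'.Arrow)) j := by
  induction h with
  | nil i => exact .nil i
  | cons a w j _ ih => exact .cons (Q := Q.disj Q') (Sum.inr a) _ _ ih

open Classical in
/-- The coefficient function of the sum of two potentials, as a potential of the disjoint union. -/
def sumCoeff {α β : Type} (f : List α → ℂ) (g : List β → ℂ) (w : List (α ⊕ β)) : ℂ :=
  (if w = (w.filterMap Sum.getLeft?).map Sum.inl then f (w.filterMap Sum.getLeft?) else 0) +
  (if w = (w.filterMap Sum.getRight?).map Sum.inr then g (w.filterMap Sum.getRight?) else 0)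

theorem isCycle_sumCoeff {Q Q' : FinQuiver V} (W : Potential Q) (W' : Potential Q')
    (w : List (Q.Arrow ⊕ Q'.Arrow)) (hw : sumCoeff W.coeff W'.coeff w ≠ 0) :
    (Q.disj Q').IsCycle w := by
  have h : (w = (w.filterMap Sum.getLeft?).map Sum.inl ∧
        W.coeff (w.filterMap Sum.getLeft?) ≠ 0) ∨
      (w = (w.filterMap Sum.getRight?).map Sum.inr ∧
        W'.coeff (w.filterMap Sum.getRight?) ≠ 0) := by
    by_contra hcon
    push Not at hcon
    apply hw
    unfold sumCoeff
    split_ifs with h1 h2 h2
    · rw [hcon.1 h1, hcon.2 h2, add_zero]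
    · rw [hcon.1 h1, add_zero]
    · rw [hcon.2 h2, add_zero]
    · rw [add_zero]
  rcases h with ⟨h1, h2⟩ | ⟨h1, h2⟩
  · obtain ⟨hne, i, hi⟩ := W.isCycle _ h2
    rw [h1]
    exact ⟨fun h => hne (List.map_eq_nil_iff.1 h), i,
      FinQuiver.isPath_map_inl _ _ _ _ _ hi⟩
  · obtain ⟨hne, i, hi⟩ := W'.isCycle _ h2
    rw [h1]
    exact ⟨fun h => hne (List.map_eq_nil_iff.1 h), i,
      FinQuiver.isPath_map_inr _ _ _ _ _ hi⟩

/-- The direct sum of two quivers with potential: the disjoint union of the arrows and the sum of
the potentials. -/
def QP.dsum (P P' : QP V) : QP V where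
  quiver := P.quiver.disj P'.quiver
  pot := ⟨sumCoeff P.pot.coeff P'.pot.coeff, isCycle_sumCoeff P.pot P'.pot⟩

/-- A quiver with potential is trivial if its potential is a linear combination of 2-cycles and its
cyclic derivatives span the space of arrows (a combination of arrows is given by its coefficient
function). -/
def QP.Trivial (P : QP V) : Prop :=
  (∀ w, P.pot.coeff w ≠ 0 → w.length = 2) ∧
    Submodule.span ℂ (Set.range fun b c : P.quiver.Arrow => P.pot.deriv b [c]) = ⊤

/-- A quiver with potential is reduced if its potential has, up to cyclic equivalence, no terms of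
length at most two. -/
def QP.Reduced (P : QP V) : Prop := ∀ w : List P.quiver.Arrow, w.length ≤ 2 → cyc P.pot.coeff w = 0

/-- `P'` is a reduced part of `P`: it is reduced, and `P` is right equivalent to the direct sum of
`P'` and a trivial quiver with potential. -/
def QP.IsReducedPart (P P' : QP V) : Prop :=
  P'.Reduced ∧ ∃ C : QP V, C.Trivial ∧ RightEquiv P (P'.dsum C)

/-- The arrows of the premutation of `Q` at `k`. -/
inductive PreArrow (Q : FinQuiver V) (k : V) : Type
  /-- the arrows of `Q` not incident with `k` are kept -/
  | keep (a : Q.Arrow) (h : Q.src a ≠ k ∧ Q.tgt a ≠ k)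
  /-- the composite arrow `[b a] : src a → tgt b` for an arrow `a` into `k` and an arrow `b` out
  of `k` -/
  | comp (a b : Q.Arrow) (ha : Q.tgt a = k) (hb : Q.src b = k)
  /-- the reversed arrow `a* : tgt a → src a` for an arrow `a` incident with `k` -/
  | star (a : Q.Arrow) (h : Q.src a = k ∨ Q.tgt a = k)

namespace PreArrow

variable {Q : FinQuiver V} {k : V}

/-- The starting vertex of an arrow of the premutation. -/
def start : PreArrow Q k → V
  | keep a _ => Q.src a
  | comp a _ _ _ => Q.src a
  | star a _ => Q.tgt a

/-- The terminal vertex of an arrow of the premutation. -/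
def stop : PreArrow Q k → V
  | keep a _ => Q.tgt a
  | comp _ b _ _ => Q.tgt b
  | star a _ => Q.src a

/-- The word of `Q` that corresponds to a kept arrow or to a composite arrow (for reversed arrows
the value is irrelevant). -/
def word : PreArrow Q k → List Q.Arrow
  | keep a _ => [a]
  | comp a b _ _ => [a, b]
  | star _ _ => []

theorem fin_preArrow (Q : FinQuiver V) (k : V) : Finite (PreArrow Q k) := by
  have := Q.finite
  let f : PreArrow Q k → Q.Arrow ⊕ (Q.Arrow × Q.Arrow) ⊕ Q.Arrow := fun x =>
    match x with
    | keep a _ => Sum.inl a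
    | comp a b _ _ => Sum.inr (Sum.inl (a, b))
    | star a _ => Sum.inr (Sum.inr a)
  refine Finite.of_injective f ?_
  rintro (⟨a, h⟩ | ⟨a, b, h, h'⟩ | ⟨a, h⟩) (⟨c, k⟩ | ⟨c, d, k, k'⟩ | ⟨c, k⟩) hf <;>
    simp_all [f]

end PreArrow

/-- The quiver of the premutation at `k`. -/
def preQuiver (Q : FinQuiver V) (k : V) : FinQuiver V where
  Arrow := PreArrow Q k
  finite := PreArrow.fin_preArrow Q k
  src := PreArrow.start
  tgt := PreArrow.stop

open Classical in
/-- The coefficient function of the potential `[W₀] + ∑_{a, b} [b a] a* b*` of the premutation,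
where `W₀` is a potential none of whose cycles starts at `k`, `[W₀]` is obtained from `W₀` by
replacing each factor `a b` (with `a` into `k` and `b` out of `k`) by the arrow `[b a]`, and the
cycle `[b a] a* b*` is, in our order of the letters, the word `[b a], b*, a*`. -/
def preCoeff (Q : FinQuiver V) (k : V) (W₀ : Potential Q) (w : List (PreArrow Q k)) : ℂ :=
  (if ∃ a h, PreArrow.star a h ∈ w then 0 else W₀.coeff (w.flatMap PreArrow.word)) +
  (if ∃ a b ha hb, w = [PreArrow.comp a b ha hb, PreArrow.star b (Or.inl hb),
    PreArrow.star a (Or.inr ha)] then 1 else 0)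

/-- `P'` is a mutation of `P` at `k` (Derksen-Weyman-Zelevinsky): replace `W` by a cyclically
equivalent potential `W₀` none of whose cycles starts at `k`, form the premutation
`(Q̃, [W₀] + ∑ [b a] a* b*)`, and pass to a reduced part. -/
def QP.Mutates (P : QP V) (k : V) (P' : QP V) : Prop :=
  ∃ W₀ : Potential P.quiver, CycEquiv W₀.coeff P.pot.coeff ∧
    (∀ a u, W₀.coeff (a :: u) ≠ 0 → P.quiver.src a ≠ k) ∧
    ∃ W₁ : Potential (preQuiver P.quiver k), W₁.coeff = preCoeff P.quiver k W₀ ∧
      QP.IsReducedPart ⟨preQuiver P.quiver k, W₁⟩ P'

/-- The quivers with potential obtained from `P` by finite sequences of mutations. -/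
inductive QPReach (P : QP V) : QP V → Prop
  | refl : QPReach P P
  | step (P' P'' : QP V) (k : V) : QPReach P P' → P'.Mutates k P'' → QPReach P P''

/-- `(Q, W)` is non-degenerate: every quiver with potential obtained from it by a finite sequence
of mutations is 2-acyclic. -/
def QP.Nondegenerate (P : QP V) : Prop := ∀ P', QPReach P P' → P'.quiver.TwoAcyclic

/-! ## The Markov quiver -/

/-- The Markov quiver: the vertices are `0, 1, 2` and there are two arrows `i → i + 1` for each
vertex `i` (addition modulo 3). -/
def markov : FinQuiver (Fin 3) where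
  Arrow := Fin 3 × Fin 2
  finite := inferInstance
  src := fun a => a.1
  tgt := fun a => a.1 + 1

end Pool.Agent.CCAlg
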