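import Mathlib
import Pool.Agent.Lib.MP_01ebeb_al.Defs

/-!
# The Euler characteristic of the empty space and of a point
-/

noncomputable section

namespace Pool.Agent.CCAlg

open CategoryTheory Limits

theorem eulerChar_eq (X : Type) [TopologicalSpace X] [TotallyDisconnectedSpace X] :
    eulerChar X = (Module.finrank ℚ (((AlgebraicTopology.singularHomologyFunctor
      (ModuleCat.{0} ℚ) 0).obj (ModuleCat.of ℚ ℚ)).obj (TopCat.of X)) : ℤ) := by
  unfold eulerChar
  rw [finsum_eq_single _ 0]
  · simp
  · intro n hn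
    have h := AlgebraicTopology.isZero_singularHomologyFunctor_of_totallyDisconnectedSpace
      (ModuleCat.{0} ℚ) n (ModuleCat.of ℚ ℚ) (TopCat.of X) hn
    have h2 := ModuleCat.subsingleton_of_isZero h
    rw [Module.finrank_zero_of_subsingleton]
    simp

theorem eulerChar_isEmpty (X : Type) [TopologicalSpace X] [IsEmpty X] : eulerChar X = 0 := by
  rw [eulerChar_eq]
  have e := AlgebraicTopology.singularHomologyFunctorZeroOfTotallyDisconnectedSpace
    (ModuleCat.{0} ℚ) (ModuleCat.of ℚ ℚ) (TopCat.of X)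
  have : IsEmpty (TopCat.of X) := inferInstanceAs (IsEmpty X)
  have h1 : IsZero (∐ fun _ : (TopCat.of X) => ModuleCat.of ℚ ℚ) := by
    have h2 : IsInitial (∐ fun _ : (TopCat.of X) => ModuleCat.of ℚ ℚ) := by
      exact IsInitial.ofUniqueHom (fun Y => Sigma.desc fun x => isEmptyElim x)
        (fun Y m => Sigma.hom_ext _ _ fun x => isEmptyElim x)
    exact h2.isZero
  have h3 := h1.of_iso e
  have h4 := ModuleCat.subsingleton_of_isZero h3
  rw [Module.finrank_zero_of_subsingleton]
  simp

theorem eulerChar_unique (X : Type) [TopologicalSpace X] [Unique X] : eulerChar X = 1 := by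
  rw [eulerChar_eq]
  have e := AlgebraicTopology.singularHomologyFunctorZeroOfTotallyDisconnectedSpace
    (ModuleCat.{0} ℚ) (ModuleCat.of ℚ ℚ) (TopCat.of X)
  let _ : Unique (TopCat.of X) := inferInstanceAs (Unique X)
  have e2 : (∐ fun _ : (TopCat.of X) => ModuleCat.of ℚ ℚ) ≅ ModuleCat.of ℚ ℚ :=
    coproductUniqueIso _
  have e3 := (e ≪≫ e2).toLinearEquiv
  rw [LinearEquiv.finrank_eq e3]
  simp

end Pool.Agent.CCAlg
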