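import Mathlib
import Pool.Agent.Lib.MP_01ebeb_al.Defs

/-!
# The grading of the cluster algebra of the Markov quiver
-/

noncomputable section

namespace Pool.Agent.CCAlg

open Polynomial

theorem markov_twoAcyclic : markov.TwoAcyclic := by
  refine ⟨?_, ?_⟩
  · rintro ⟨i, p⟩
    show i ≠ i + 1
    revert i
    decide
  · rintro ⟨i, p⟩ ⟨j, q⟩
    show ¬ (i + 1 = j ∧ j + 1 = i)
    revert i j
    decide

theorem markov_num (i j : Fin 3) : markov.num i j = if j = i + 1 then 2 else 0 := by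
  have e : markov.num i j = Nat.card {a : Fin 3 × Fin 2 // a.1 = i ∧ a.1 + 1 = j} := rfl
  rw [e, Nat.card_eq_fintype_card]
  clear e
  revert i j
  decide

theorem markov_bmat : markov.bmat = !![0, -2, 2; 2, 0, -2; -2, 2, 0] := by
  ext i j
  unfold FinQuiver.bmat
  rw [markov_num, markov_num]
  fin_cases i <;> fin_cases j <;> rfl

section scaling

variable {V : Type}

/-- Scaling of the variables. -/
def scale (c : V → ℂˣ) : MvPolynomial V ℂ ≃ₐ[ℂ] MvPolynomial V ℂ :=
  AlgEquiv.ofAlgHom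
    (MvPolynomial.aeval fun i => MvPolynomial.C (c i : ℂ) * MvPolynomial.X i)
    (MvPolynomial.aeval fun i => MvPolynomial.C (((c i)⁻¹ : ℂˣ) : ℂ) * MvPolynomial.X i)
    (by
      ext i
      simp only [AlgHom.comp_apply, MvPolynomial.aeval_X, map_mul, AlgHom.id_apply,
        MvPolynomial.aeval_C, MvPolynomial.algebraMap_eq]
      rw [← mul_assoc, ← MvPolynomial.C_mul]
      simp)
    (by
      ext i
      simp only [AlgHom.comp_apply, MvPolynomial.aeval_X, map_mul, AlgHom.id_apply,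
        MvPolynomial.aeval_C, MvPolynomial.algebraMap_eq]
      rw [← mul_assoc, ← MvPolynomial.C_mul]
      simp)

/-- The automorphism of the ambient field which scales the variables. -/
def tau (c : V → ℂˣ) : Amb V ≃+* Amb V :=
  IsFractionRing.ringEquivOfRingEquiv (scale c).toRingEquiv

theorem tau_algebraMap' (c : V → ℂˣ) (f : MvPolynomial V ℂ) :
    tau c (algebraMap _ (Amb V) f) = algebraMap _ (Amb V) (scale c f) := by
  unfold tau
  rw [IsFractionRing.ringEquivOfRingEquiv_algebraMap]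
  rfl

theorem algebraMap_eq_C (z : ℂ) :
    algebraMap ℂ (Amb V) z =
      algebraMap (MvPolynomial V ℂ) (Amb V) (MvPolynomial.C z) := by
  rw [IsScalarTower.algebraMap_apply ℂ (MvPolynomial V ℂ) (Amb V)]
  rfl

theorem tau_algebraMap (c : V → ℂˣ) (z : ℂ) :
    tau c (algebraMap ℂ (Amb V) z) = algebraMap ℂ (Amb V) z := by
  rw [algebraMap_eq_C, tau_algebraMap']
  congr 1
  have := (scale c).commutes z
  exact this

theorem tau_xv (c : V → ℂˣ) (i : V) :
    tau c (xv i) = algebraMap ℂ (Amb V) (c i) * xv i := by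
  unfold xv
  rw [tau_algebraMap', algebraMap_eq_C, ← map_mul]
  congr 1
  show (MvPolynomial.aeval fun i => MvPolynomial.C (c i : ℂ) * MvPolynomial.X i)
    (MvPolynomial.X i) = _
  rw [MvPolynomial.aeval_X]

theorem xv_ne_zero (i : V) : (xv i : Amb V) ≠ 0 := by
  unfold xv
  rw [Ne, IsFractionRing.to_map_eq_zero_iff]
  exact MvPolynomial.X_ne_zero i

end scaling

/-- The scaling factors `t σ_i` with `σ_i = ± 1`. -/
def cs (t : ℂˣ) (σ : Fin 3 → ℤˣ) (i : Fin 3) : ℂˣ :=
  t * Units.map (Int.castRingHom ℂ : ℤ →* ℂ) (σ i)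

theorem cs_val (t : ℂˣ) (σ : Fin 3 → ℤˣ) (i : Fin 3) :
    ((cs t σ i : ℂˣ) : ℂ) = t * ((σ i : ℤ) : ℂ) := by
  simp [cs]

theorem cs_sq (t : ℂˣ) (σ : Fin 3 → ℤˣ) (i : Fin 3) :
    ((cs t σ i : ℂˣ) : ℂ) ^ 2 = (t : ℂ) ^ 2 := by
  rw [cs_val, mul_pow]
  have : (((σ i : ℤ) : ℂ)) ^ 2 = 1 := by
    rcases Int.units_eq_one_or (σ i) with h | h <;> simp [h]
  rw [this, mul_one]

/-- The invariant of the seeds of the Markov quiver. -/
def SeedInv (s : Seed (Fin 3)) : Prop :=
  (s.exch = markov.bmat ∨ s.exch = -markov.bmat) ∧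
    ∀ t σ i, tau (cs t σ) (s.var i) = algebraMap ℂ _ ((cs t σ i : ℂˣ) : ℂ) * s.var i

theorem seedInv_init : SeedInv ⟨xv, markov.bmat⟩ :=
  ⟨Or.inl rfl, fun _ _ i => tau_xv _ i⟩

theorem exchange_aux {s : Seed (Fin 3)} (hB : s.exch = markov.bmat ∨ s.exch = -markov.bmat) (k : Fin 3) :
    (∏ i, s.var i ^ (s.exch i k).toNat + ∏ i, s.var i ^ (-s.exch i k).toNat) =
      s.var (k + 1) ^ 2 + s.var (k + 2) ^ 2 := by
  rcases hB with h | h
  · rw [h, markov_bmat]
    fin_cases k
    · simp [Fin.prod_univ_three]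
    · simp [Fin.prod_univ_three]
    · simp [Fin.prod_univ_three]
  · rw [h, markov_bmat]
    fin_cases k
    · simp [Fin.prod_univ_three]
      ring
    · simp [Fin.prod_univ_three]
      ring
    · simp [Fin.prod_univ_three]
      ring

theorem mutate_B {s : Seed (Fin 3)} (hB : s.exch = markov.bmat ∨ s.exch = -markov.bmat) (k : Fin 3) :
    (s.mutate k).exch = -s.exch := by
  ext i j
  simp only [Seed.mutate, Matrix.neg_apply]
  rcases hB with h | h
  · rw [h, markov_bmat]
    fin_cases k <;> fin_cases i <;> fin_cases j <;> simp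
  · rw [h, markov_bmat]
    fin_cases k <;> fin_cases i <;> fin_cases j <;> simp

theorem seedInv_mutate {s : Seed (Fin 3)} (hs : SeedInv s) (k : Fin 3) :
    SeedInv (s.mutate k) := by
  refine ⟨?_, ?_⟩
  · rw [mutate_B hs.1]
    rcases hs.1 with h | h
    · right; rw [h]
    · left; rw [h, neg_neg]
  · intro t σ i
    have hx : (s.mutate k).var = Function.update s.var k
        ((s.var (k + 1) ^ 2 + s.var (k + 2) ^ 2) / s.var k) := by
      simp only [Seed.mutate, exchange_aux hs.1]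
    rw [hx]
    by_cases hi : i = k
    · subst hi
      rw [Function.update_self, map_div₀, map_add, map_pow, map_pow, hs.2, hs.2, hs.2]
      have hc : (algebraMap ℂ (Amb (Fin 3)) ((cs t σ i : ℂˣ) : ℂ)) ≠ 0 := by
        rw [Ne, map_eq_zero_iff _ (algebraMap ℂ (Amb (Fin 3))).injective]
        exact (cs t σ i).ne_zero
      have h1 : (algebraMap ℂ (Amb (Fin 3)) ((cs t σ (i + 1) : ℂˣ) : ℂ)) ^ 2 =
          (algebraMap ℂ (Amb (Fin 3)) ((cs t σ i : ℂˣ) : ℂ)) ^ 2 := by
        rw [← map_pow, ← map_pow, cs_sq, cs_sq]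
      have h2 : (algebraMap ℂ (Amb (Fin 3)) ((cs t σ (i + 2) : ℂˣ) : ℂ)) ^ 2 =
          (algebraMap ℂ (Amb (Fin 3)) ((cs t σ i : ℂˣ) : ℂ)) ^ 2 := by
        rw [← map_pow, ← map_pow, cs_sq, cs_sq]
      rw [mul_pow, mul_pow, h1, h2]
      by_cases hx0 : s.var i = 0
      · simp [hx0]
      · field_simp
    · rw [Function.update_of_ne hi]
      exact hs.2 t σ i

theorem seedInv_reach {s : Seed (Fin 3)} (h : SeedReach ⟨xv, markov.bmat⟩ s) : SeedInv s := by
  induction h with
  | refl => exact seedInv_init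
  | step t k _ ih => exact seedInv_mutate ih k

/-- The elements all of whose images under the scalings are given by polynomials in `t` with
restricted coefficients of `1` and `t`. -/
def Good (f : Amb (Fin 3)) : Prop :=
  ∃ (p : (Fin 3 → ℤˣ) → (Amb (Fin 3))[X]) (c : ℂ) (h : Fin 3 → Amb (Fin 3)),
    (∀ (t : ℂˣ) σ, tau (cs t σ) f = (p σ).eval (algebraMap ℂ (Amb (Fin 3)) (t : ℂ))) ∧
    (∀ σ, (p σ).coeff 0 = algebraMap ℂ _ c) ∧
    (∀ σ : Fin 3 → ℤˣ, (p σ).coeff 1 = ∑ i, ((σ i : ℤ) : Amb (Fin 3)) * h i)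

theorem good_var {u : Amb (Fin 3)}
    (hu : ∃ t : Seed (Fin 3), SeedReach ⟨xv, markov.bmat⟩ t ∧ ∃ i, u = t.var i) : Good u := by
  obtain ⟨s, hs, i, rfl⟩ := hu
  have hinv := seedInv_reach hs
  refine ⟨fun σ => C (((σ i : ℤ) : Amb (Fin 3)) * s.var i) * X, 0, fun j => if j = i then s.var i else 0,
    ?_, ?_, ?_⟩
  · intro t σ
    rw [hinv.2 t σ i, cs_val, map_mul]
    simp only [eval_mul, eval_C, eval_X, map_intCast]
    ring
  · intro σ
    simp
  · intro σ
    simp

theorem good_algebraMap (z : ℂ) : Good (algebraMap ℂ _ z) := by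
  refine ⟨fun _ => C (algebraMap ℂ _ z), z, 0, ?_, ?_, ?_⟩
  · intro t σ
    rw [tau_algebraMap, eval_C]
  · intro σ; simp
  · intro σ; simp

theorem Good.add {f g : Amb (Fin 3)} (hf : Good f) (hg : Good g) : Good (f + g) := by
  obtain ⟨p, c, h, h1, h2, h3⟩ := hf
  obtain ⟨q, d, k, k1, k2, k3⟩ := hg
  refine ⟨fun σ => p σ + q σ, c + d, h + k, ?_, ?_, ?_⟩
  · intro t σ
    rw [map_add, h1, k1, eval_add]
  · intro σ
    rw [coeff_add, h2, k2, map_add]
  · intro σ
    rw [coeff_add, h3, k3, ← Finset.sum_add_distrib]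
    exact Finset.sum_congr rfl fun i _ => by rw [Pi.add_apply]; ring

theorem Good.mul {f g : Amb (Fin 3)} (hf : Good f) (hg : Good g) : Good (f * g) := by
  obtain ⟨p, c, h, h1, h2, h3⟩ := hf
  obtain ⟨q, d, k, k1, k2, k3⟩ := hg
  refine ⟨fun σ => p σ * q σ, c * d,
    fun i => algebraMap ℂ _ c * k i + algebraMap ℂ _ d * h i, ?_, ?_, ?_⟩
  · intro t σ
    rw [map_mul, h1, k1, eval_mul]
  · intro σ
    rw [mul_coeff_zero, h2, k2, map_mul]
  · intro σ
    rw [mul_coeff_one, h2, k2, h3, k3, Finset.mul_sum, Finset.sum_mul, ← Finset.sum_add_distrib]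
    exact Finset.sum_congr rfl fun i _ => by ring

theorem good_of_mem {f : Amb (Fin 3)} (hf : f ∈ clusterAlgebra markov) : Good f := by
  unfold clusterAlgebra at hf
  induction hf using Algebra.adjoin_induction with
  | mem x hx => exact good_var hx
  | algebraMap r => exact good_algebraMap r
  | add x y _ _ hx hy => exact hx.add hy
  | mul x y _ _ hx hy => exact hx.mul hy

theorem infinite_range : (Set.range fun t : ℂˣ => algebraMap ℂ (Amb (Fin 3)) (t : ℂ)).Infinite := by
  have : Infinite ℂˣ := by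
    refine Infinite.of_injective (fun n : ℕ => Units.mk0 ((n : ℂ) + 1) ?_) ?_
    · exact_mod_cast Nat.succ_ne_zero n
    · intro a b h
      have h2 : ((a : ℂ) + 1) = (b : ℂ) + 1 := congrArg (fun u : ℂˣ => (u : ℂ)) h
      have h3 : (a : ℂ) = b := by linear_combination h2
      exact_mod_cast h3
  apply Set.infinite_range_of_injective
  intro a b h
  exact Units.ext ((algebraMap ℂ (Amb (Fin 3))).injective h)

/-- Polynomials over the ambient field which agree on the nonzero complex numbers are equal. -/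
theorem poly_eq {p q : (Amb (Fin 3))[X]}
    (h : ∀ t : ℂˣ, p.eval (algebraMap ℂ _ (t : ℂ)) = q.eval (algebraMap ℂ _ (t : ℂ))) :
    p = q := by
  apply Polynomial.eq_of_infinite_eval_eq
  refine infinite_range.mono ?_
  rintro _ ⟨t, rfl⟩
  exact h t

/-- The main criterion: a nonzero element of weight `n` does not lie in the cluster algebra if
`n 1` is odd and either the degree `∑ n i` is at most `0`, or it is `1` and all `n i` are odd. -/
theorem not_mem_of_weight (f : Amb (Fin 3)) (hf : f ≠ 0) (n : Fin 3 → ℤ)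
    (hw : ∀ (t : ℂˣ) (σ : Fin 3 → ℤˣ), tau (cs t σ) f =
      algebraMap ℂ _ ((t : ℂ) ^ (∑ i, n i) * ∏ i, ((σ i : ℤ) : ℂ) ^ (n i)) * f)
    (hn1 : Odd (n 1)) (hn : ∑ i, n i ≤ 0 ∨ (∑ i, n i = 1 ∧ ∀ i, Odd (n i))) :
    f ∉ clusterAlgebra markov := by
  intro hmem
  obtain ⟨p, c, h, h1, h2, h3⟩ := good_of_mem hmem
  rcases hn with hn | ⟨hn, hodd⟩
  · obtain ⟨m, hm⟩ : ∃ m : ℕ, ∑ i, n i = -(m : ℤ) := ⟨(-∑ i, n i).toNat, by omega⟩
    -- `t^m p σ = s(σ) f`
    have key : ∀ σ : Fin 3 → ℤˣ, X ^ m * p σ =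
        C (algebraMap ℂ _ (∏ i, ((σ i : ℤ) : ℂ) ^ (n i)) * f) := by
      intro σ
      apply poly_eq
      intro t
      rw [eval_mul, eval_pow, eval_X, eval_C, ← h1 t σ, hw t σ, hm, map_mul, ← mul_assoc,
        ← mul_assoc, ← map_pow, ← map_mul, zpow_neg, zpow_natCast,
        mul_inv_cancel₀ (pow_ne_zero _ t.ne_zero), map_one, one_mul]
    rcases Nat.eq_zero_or_pos m with rfl | hmpos
    · have e1 := congrArg (fun q => coeff q 0) (key 1)
      have e2 := congrArg (fun q => coeff q 0) (key (Function.update 1 1 (-1)))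
      simp only [pow_zero, one_mul, h2, coeff_C_zero, Fin.prod_univ_three] at e1 e2
      have hs : ((-1 : ℂ)) ^ (n 1) = -1 := hn1.neg_one_zpow
      simp [Function.update, hs] at e1 e2
      rw [e1] at e2
      have : (2 : Amb (Fin 3)) * f = 0 := by linear_combination e2
      rcases mul_eq_zero.1 this with h | h
      · exact two_ne_zero h
      · exact hf h
    · have e1 := congrArg (fun q => coeff q 0) (key 1)
      simp only [coeff_C_zero] at e1
      rw [mul_coeff_zero, coeff_X_pow] at e1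
      simp [hmpos.ne] at e1
      exact hf e1.symm
  · have key : ∀ σ : Fin 3 → ℤˣ, p σ =
        C (algebraMap ℂ _ (∏ i, ((σ i : ℤ) : ℂ) ^ (n i)) * f) * X := by
      intro σ
      apply poly_eq
      intro t
      rw [eval_mul, eval_X, eval_C, ← h1 t σ, hw t σ, hn, map_mul, zpow_one]
      ring
    have hneg : ∀ i, ((-1 : ℂ)) ^ (n i) = -1 := fun i => (hodd i).neg_one_zpow
    have e0 := congrArg (fun q => coeff q 1) (key 1)
    have e1 := congrArg (fun q => coeff q 1) (key (Function.update 1 0 (-1)))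
    have e2 := congrArg (fun q => coeff q 1) (key (Function.update 1 1 (-1)))
    have e3 := congrArg (fun q => coeff q 1) (key (Function.update 1 2 (-1)))
    simp only [h3, coeff_C_mul_X, Fin.prod_univ_three, Fin.sum_univ_three] at e0 e1 e2 e3
    simp [Function.update, hneg] at e0 e1 e2 e3
    have : (4 : Amb (Fin 3)) * f = 0 := by linear_combination e1 + e2 + e3 - e0
    rcases mul_eq_zero.1 this with h | h
    · exact absurd h (by norm_num)
    · exact hf h

end Pool.Agent.CCAlg
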