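import Mathlib
import Pool.Agent.Lib.MP_01ebeb_al.Defs
import Pool.Agent.Lib.MP_01ebeb_al.Grading

/-!
# A module over every Jacobian algebra of the Markov quiver
-/

noncomputable section

namespace Pool.Agent.CCAlg

/-! ## Paths and potentials of the Markov quiver -/

theorem markov_isPath {i j : Fin 3} {w : List markov.Arrow} (h : markov.IsPath i w j) :
    (j : ℕ) = ((i : ℕ) + w.length) % 3 := by
  induction h with
  | nil i => rw [List.length_nil, add_zero, Nat.mod_eq_of_lt i.isLt]
  | cons a w j _ ih =>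
    have h4 : ((markov.tgt a : Fin 3) : ℕ) = (((markov.src a : Fin 3) : ℕ) + 1) % 3 := by
      have : markov.tgt a = (markov.src a : Fin 3) + 1 := rfl
      rw [this, Fin.val_add]; rfl
    rw [ih, h4, List.length_cons]
    omega

theorem markov_coeff_eq_zero (W : Potential markov) {w : List markov.Arrow}
    (h : w.length % 3 ≠ 0) : W.coeff w = 0 := by
  by_contra hne
  obtain ⟨_, i, hi⟩ := W.isCycle w hne
  have h1 := markov_isPath hi
  have h2 := i.isLt
  omega

theorem markov_cyc_eq_zero (W : Potential markov) {w : List markov.Arrow}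
    (h : w.length % 3 ≠ 0) : cyc W.coeff w = 0 := by
  unfold cyc
  refine Finset.sum_eq_zero fun k _ => markov_coeff_eq_zero W ?_
  rw [List.length_rotate]
  exact h

/-! ## The module -/

instance : Fintype markov.Arrow := inferInstanceAs (Fintype (Fin 3 × Fin 2))

instance : DecidableEq markov.Arrow := inferInstanceAs (DecidableEq (Fin 3 × Fin 2))

/-- The arrow `(i, p) : i → i + 1`. -/
def ar (i : Fin 3) (p : Fin 2) : markov.Arrow := (i, p)

/-- The distinguished arrow. -/
abbrev a0 (p : Fin 2) : markov.Arrow := ar 0 p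

theorem src_ar (i : Fin 3) (p : Fin 2) : markov.src (ar i p) = i := rfl

theorem tgt_ar (i : Fin 3) (p : Fin 2) : markov.tgt (ar i p) = i + 1 := rfl

theorem fin2_ne {p q : Fin 2} (h : q ≠ p) : q = p + 1 := by
  revert p q
  decide

theorem ar_ne (i : Fin 3) (p : Fin 2) : ar i p ≠ ar i (p + 1) := by
  intro h
  have h4 : p = p + 1 := congrArg Prod.snd h
  clear h
  revert h4
  revert p
  decide

theorem eq_ar_of_ne {i : Fin 3} {p : Fin 2} {a : markov.Arrow} (hs : markov.src a = i)
    (ha : a ≠ ar i p) : a = ar i (p + 1) := by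
  obtain ⟨s, q⟩ := a
  have hs' : s = i := hs
  subst hs'
  have hq : q ≠ p := fun h => ha (by rw [h]; rfl)
  rw [fin2_ne hq]
  rfl

/-- The module with dimension vector `(1, 1, 0)` on which the arrow `(0, p)` maps the first basis
vector to the second one, and all other arrows act as zero. -/
def MM (p : Fin 2) : Rep markov where
  size := 2
  vert := ![0, 1]
  mat := fun a => if a = a0 p then !![0, 0; 1, 0] else 0
  supp := by
    intro a r s h
    by_cases ha : a = a0 p
    · rw [if_pos ha] at h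
      subst ha
      rw [src_ar, tgt_ar]
      fin_cases r <;> fin_cases s <;> simp_all
    · rw [if_neg ha] at h
      exact absurd rfl h

theorem MM_mat_of_ne {p : Fin 2} {a : markov.Arrow} (h : a ≠ a0 p) : (MM p).mat a = 0 :=
  if_neg h

theorem MM_mat_self (p : Fin 2) :
    (MM p).mat (a0 p) = (!![0, 0; 1, 0] : Matrix (Fin 2) (Fin 2) ℂ) := if_pos rfl

theorem MM_mulVec_self (p : Fin 2) (x : Fin 2 → ℂ) :
    ((MM p).mat (a0 p)).mulVec x = (![0, x 0] : Fin 2 → ℂ) := by
  rw [MM_mat_self]
  show (!![0, 0; 1, 0] : Matrix (Fin 2) (Fin 2) ℂ).mulVec x = _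
  ext s
  fin_cases s <;> simp [Matrix.mulVec, dotProduct]

theorem MM_mulVec_of_ne {p : Fin 2} {a : markov.Arrow} (h : a ≠ a0 p) (x : Fin 2 → ℂ) :
    ((MM p).mat a).mulVec x = (0 : Fin 2 → ℂ) := by
  rw [MM_mat_of_ne h]
  exact Matrix.zero_mulVec _

theorem MM_mulVec_mulVec (p : Fin 2) (a b : markov.Arrow) (x : Fin 2 → ℂ) :
    ((MM p).mat b).mulVec (((MM p).mat a).mulVec x) = (0 : Fin 2 → ℂ) := by
  by_cases ha : a = a0 p
  · by_cases hb : b = a0 p
    · have h1 := MM_mulVec_self p x
      rw [← ha] at h1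
      have h2 := MM_mulVec_self p (![0, x 0] : Fin 2 → ℂ)
      rw [← hb] at h2
      refine (congrArg ((MM p).mat b).mulVec h1).trans (h2.trans ?_)
      funext s
      match s with
      | ⟨0, _⟩ => rfl
      | ⟨1, _⟩ => rfl
    · exact MM_mulVec_of_ne hb _
  · exact (congrArg ((MM p).mat b).mulVec (MM_mulVec_of_ne ha x)).trans (Matrix.mulVec_zero _)

theorem MM_act_zero (p : Fin 2) (w : List markov.Arrow) :
    (MM p).act w (0 : Fin 2 → ℂ) = (0 : Fin 2 → ℂ) := by
  induction w with
  | nil => rfl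
  | cons a w ih =>
    show (MM p).act w (((MM p).mat a).mulVec (0 : Fin 2 → ℂ)) = _
    have : ((MM p).mat a).mulVec (0 : Fin 2 → ℂ) = (0 : Fin 2 → ℂ) := Matrix.mulVec_zero _
    rw [this, ih]

theorem MM_act_two (p : Fin 2) (w : List markov.Arrow) (h : 2 ≤ w.length) (x : Fin 2 → ℂ) :
    (MM p).act w x = (0 : Fin 2 → ℂ) := by
  match w, h with
  | a :: b :: w, _ =>
    show (MM p).act w (((MM p).mat b).mulVec (((MM p).mat a).mulVec x)) = 0
    rw [MM_mulVec_mulVec]
    exact MM_act_zero p w

theorem MM_nilpotent (p : Fin 2) : (MM p).Nilpotent :=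
  ⟨2, fun w hw x s => congrFun (MM_act_two p w hw x) s⟩

theorem MM_actSeries (p : Fin 2) (f : List markov.Arrow → ℂ) (x : Fin 2 → ℂ) (s : Fin 2) :
    (MM p).actSeries f x s = f [] * x s + f [a0 p] * (![0, x 0] : Fin 2 → ℂ) s := by
  unfold Rep.actSeries
  have hsub : (Function.support fun w => f w * (MM p).act w x s) ⊆
      (({[], [a0 p]} : Finset (List markov.Arrow)) : Set (List markov.Arrow)) := by
    intro w hw
    rw [Function.mem_support] at hw
    match w with
    | [] => simp
    | [a] =>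
      by_cases ha : a = a0 p
      · rw [ha]; simp
      · exfalso
        apply hw
        have h1 : (MM p).act [a] x = (0 : Fin 2 → ℂ) := MM_mulVec_of_ne ha x
        rw [h1]
        exact mul_zero _
    | a :: b :: w =>
      exfalso
      apply hw
      rw [MM_act_two p _ (by simp)]
      exact mul_zero _
  rw [finsum_eq_sum_of_support_subset _ hsub, Finset.sum_pair (by simp)]
  have h1 : (MM p).act [a0 p] x = (![0, x 0] : Fin 2 → ℂ) := MM_mulVec_self p x
  rw [h1]
  rfl

theorem MM_isModule (p : Fin 2) (W : Potential markov) : (MM p).IsModule W := by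
  refine ⟨MM_nilpotent p, fun b x s => ?_⟩
  refine (MM_actSeries p _ x s).trans ?_
  have h1 : W.deriv b [] = 0 := markov_cyc_eq_zero W (show 1 % 3 ≠ 0 by norm_num)
  have h2 : W.deriv b [a0 p] = 0 := markov_cyc_eq_zero W (show 2 % 3 ≠ 0 by norm_num)
  rw [h1, h2, zero_mul, zero_mul, add_zero]

/-- The decorated representation `(M, 0)`. -/
def DD (p : Fin 2) (W : Potential markov) : DecRep markov W := ⟨MM p, MM_isModule p W, 0⟩

/-! ## The `g`-vector -/

theorem MM_vert_zero (p : Fin 2) : (MM p).vert (0 : Fin 2) = 0 := rfl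

theorem MM_vert_one (p : Fin 2) : (MM p).vert (1 : Fin 2) = 1 := rfl

theorem finrank_le_of_subset {E : Type} [AddCommGroup E] [Module ℂ E] {S : Set E}
    {U : Submodule ℂ E} [Module.Finite ℂ U] (h : S ⊆ U) :
    Set.finrank ℂ S ≤ Module.finrank ℂ U :=
  Submodule.finrank_mono (Submodule.span_le.2 h)

theorem MM_homDim_one (p : Fin 2) : (MM p).homDim 1 = 1 := by
  have h : {x : Fin 2 → ℂ | (∀ s, (MM p).vert s ≠ 1 → x s = 0) ∧
      ∀ a s, ((MM p).mat a).mulVec x s = 0} =
      ((Submodule.span ℂ {(![0, 1] : Fin 2 → ℂ)} : Submodule ℂ (Fin 2 → ℂ)) :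
        Set (Fin 2 → ℂ)) := by
    ext x
    constructor
    · rintro ⟨h1, -⟩
      have h2 : x 0 = 0 := h1 (0 : Fin 2) (by rw [MM_vert_zero]; decide)
      refine Submodule.mem_span_singleton.2 ⟨x 1, ?_⟩
      ext s
      fin_cases s
      · simp [h2]
      · simp
    · intro hx
      obtain ⟨c, rfl⟩ := Submodule.mem_span_singleton.1 hx
      refine ⟨?_, ?_⟩
      · intro s hs
        match s with
        | ⟨0, _⟩ =>
          show c * (0 : ℂ) = 0
          rw [mul_zero]
        | ⟨1, _⟩ => exact absurd (MM_vert_one p) hs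
      · intro a s
        by_cases ha : a = a0 p
        · subst ha
          refine (congrFun (MM_mulVec_self p _) s).trans ?_
          match s with
          | ⟨0, _⟩ => rfl
          | ⟨1, _⟩ =>
            show c * (0 : ℂ) = 0
            rw [mul_zero]
        · exact congrFun (MM_mulVec_of_ne ha _) s
  show Set.finrank ℂ {x : Fin 2 → ℂ | (∀ s, (MM p).vert s ≠ 1 → x s = 0) ∧
      ∀ a s, ((MM p).mat a).mulVec x s = 0} = 1
  rw [h]
  unfold Set.finrank
  rw [Submodule.span_eq]
  apply finrank_span_singleton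
  intro h0
  have := congrFun h0 1
  simp at this

/-- The cocycles. -/
def ZZ (p : Fin 2) (W : Potential markov) (i : Fin 3) : Set (markov.Arrow → Fin 2 → ℂ) :=
  (MM p).cocycles W i

/-- The coboundaries. -/
def BB (p : Fin 2) (i : Fin 3) : Set (markov.Arrow → Fin 2 → ℂ) := (MM p).coboundaries i

theorem MM_extDim (p : Fin 2) (W : Potential markov) (i : Fin 3) : (MM p).extDim W i =
    (Set.finrank ℂ (ZZ p W i) : ℤ) - (Set.finrank ℂ (BB p i) : ℤ) := rfl

theorem MM_cocycles_one (p : Fin 2) (W : Potential markov) {ξ : markov.Arrow → Fin 2 → ℂ}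
    (h : ξ ∈ ZZ p W 1) : ξ = 0 := by
  funext a s
  by_contra hne
  obtain ⟨h1, h2⟩ := h.1 a s hne
  have h3 : markov.tgt a = 2 := by
    show (markov.src a : Fin 3) + 1 = 2
    rw [h1]; rfl
  rw [h3] at h2
  match s with
  | ⟨0, _⟩ => exact absurd ((MM_vert_zero p).symm.trans h2) (by decide)
  | ⟨1, _⟩ => exact absurd ((MM_vert_one p).symm.trans h2) (by decide)

theorem MM_coboundaries_one (p : Fin 2) {ξ : markov.Arrow → Fin 2 → ℂ}
    (h : ξ ∈ BB p 1) : ξ = 0 := by
  obtain ⟨m, hm, hξ⟩ := h
  funext a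
  rw [hξ a]
  by_cases ha : a = a0 p
  · subst ha
    refine (MM_mulVec_self p m).trans ?_
    have h0 : m (0 : Fin 2) = 0 := hm (0 : Fin 2) (by rw [MM_vert_zero]; decide)
    have h0' : (show Fin 2 → ℂ from m) 0 = 0 := h0
    rw [h0']
    ext s
    fin_cases s <;> rfl
  · exact MM_mulVec_of_ne ha m

theorem finrank_eq_zero_of {E : Type} [AddCommGroup E] [Module ℂ E] {S : Set E}
    (h : ∀ x ∈ S, x = 0) : Set.finrank ℂ S = 0 := by
  have h1 : Submodule.span ℂ S = ⊥ := by
    rw [Submodule.span_eq_bot]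
    exact h
  unfold Set.finrank
  rw [h1, finrank_bot]

theorem MM_gvec_one (p : Fin 2) (W : Potential markov) : (DD p W).gvec 1 = -1 := by
  have h1 : (MM p).homDim 1 = 1 := MM_homDim_one p
  have h2 : (MM p).extDim W 1 = 0 := by
    rw [MM_extDim, finrank_eq_zero_of fun x hx => MM_cocycles_one p W hx,
      finrank_eq_zero_of fun x hx => MM_coboundaries_one p hx]
    rfl
  show -((MM p).homDim 1 : ℤ) + (MM p).extDim W 1 + ((0 : ℕ) : ℤ) = -1
  rw [h1, h2]
  rfl

/-- The basis vector of the space of families of vectors. -/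
def bv (a : markov.Arrow) (s : Fin 2) : markov.Arrow → Fin 2 → ℂ :=
  fun a' s' => if a' = a ∧ s' = s then 1 else 0

theorem MM_extDim_zero (p : Fin 2) (W : Potential markov) : (MM p).extDim W 0 ≤ 1 := by
  have hZ : Set.finrank ℂ (ZZ p W 0) ≤ 2 := by
    have hsub : ZZ p W 0 ⊆
        (Submodule.span ℂ (({bv (ar 0 p) 1, bv (ar 0 (p + 1)) 1} :
          Finset (markov.Arrow → Fin 2 → ℂ)) : Set (markov.Arrow → Fin 2 → ℂ)) :
          Submodule ℂ (markov.Arrow → Fin 2 → ℂ)) := by
      intro ξ hξ
      rw [Finset.coe_pair]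
      refine Submodule.mem_span_pair.2 ⟨ξ (ar 0 p) (1 : Fin 2), ξ (ar 0 (p + 1)) (1 : Fin 2), ?_⟩
      funext a s
      show ξ (ar 0 p) (1 : Fin 2) * bv (ar 0 p) 1 a s +
        ξ (ar 0 (p + 1)) (1 : Fin 2) * bv (ar 0 (p + 1)) 1 a s = ξ a s
      by_cases h0 : ξ a s = 0
      · have e : ∀ a', ξ a' (1 : Fin 2) * bv a' 1 a s = 0 := by
          intro a'
          unfold bv
          by_cases h1 : a = a' ∧ s = 1
          · obtain ⟨rfl, rfl⟩ := h1
            rw [h0, zero_mul]
          · rw [if_neg h1, mul_zero]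
        rw [h0, e, e, add_zero]
      · obtain ⟨h1, h2⟩ := hξ.1 a s h0
        have hs : s = (1 : Fin 2) := by
          have h3 : markov.tgt a = 1 := by
            show (markov.src a : Fin 3) + 1 = 1
            rw [h1]; rfl
          rw [h3] at h2
          match s with
          | ⟨0, _⟩ => exact absurd ((MM_vert_zero p).symm.trans h2) (by decide)
          | ⟨1, _⟩ => rfl
        subst hs
        have hne := ar_ne 0 p
        by_cases ha : a = ar 0 p
        · subst ha
          unfold bv
          rw [if_pos ⟨rfl, rfl⟩, if_neg (fun h => hne h.1), mul_one, mul_zero, add_zero]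
        · have ha2 := eq_ar_of_ne h1 ha
          subst ha2
          unfold bv
          rw [if_neg (fun h => hne h.1.symm), if_pos ⟨rfl, rfl⟩, mul_one, mul_zero, zero_add]
    refine (finrank_le_of_subset hsub).trans ?_
    refine (finrank_span_finset_le_card _).trans Finset.card_le_two
  have hB : 1 ≤ Set.finrank ℂ (BB p 0) := by
    unfold Set.finrank
    rw [Submodule.one_le_finrank_iff]
    intro h
    have hmem : bv (a0 p) 1 ∈ BB p 0 := by
      refine ⟨(![1, 0] : Fin 2 → ℂ), ?_, ?_⟩
      · intro s hs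
        match s with
        | ⟨0, _⟩ => exact absurd (MM_vert_zero p) hs
        | ⟨1, _⟩ => rfl
      · intro a
        by_cases ha : a = a0 p
        · subst ha
          refine Eq.trans ?_ (MM_mulVec_self p _).symm
          funext s
          unfold bv
          fin_cases s <;> simp
        · refine Eq.trans ?_ (MM_mulVec_of_ne ha _).symm
          funext s
          exact if_neg fun h => ha h.1
    have h1 := Submodule.subset_span (R := ℂ) hmem
    rw [h] at h1
    have h2 : bv (a0 p) 1 = 0 := h1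
    have h3 : bv (a0 p) 1 (a0 p) 1 = 0 := by rw [h2]; rfl
    unfold bv at h3
    rw [if_pos ⟨rfl, rfl⟩] at h3
    exact one_ne_zero h3
  rw [MM_extDim]
  omega

theorem MM_extDim_two (p : Fin 2) (W : Potential markov) {k j : Fin 2}
    (hT : cyc W.coeff [ar 1 k, ar 2 j, ar 0 p] ≠ 0) :
    (MM p).extDim W 2 ≤ 1 := by
  have hZ : Set.finrank ℂ (ZZ p W 2) ≤ 1 := by
    let c : ℂ := -(cyc W.coeff [ar 1 k, ar 2 (j + 1), ar 0 p] /
      cyc W.coeff [ar 1 k, ar 2 j, ar 0 p])
    have hne := ar_ne 2 j
    have hsub : ZZ p W 2 ⊆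
        (Submodule.span ℂ {c • bv (ar 2 j) 0 + bv (ar 2 (j + 1)) 0} :
          Submodule ℂ (markov.Arrow → Fin 2 → ℂ)) := by
      intro ξ hξ
      have hsupp : ∀ a (s : Fin 2), ξ a s ≠ 0 → markov.src a = 2 ∧ s = (0 : Fin 2) := by
        intro a s h0
        obtain ⟨h1, h2⟩ := hξ.1 a s h0
        refine ⟨h1, ?_⟩
        have h3 : markov.tgt a = 0 := by
          show (markov.src a : Fin 3) + 1 = 0
          rw [h1]; rfl
        rw [h3] at h2
        match s with
        | ⟨0, _⟩ => rfl
        | ⟨1, _⟩ => exact absurd ((MM_vert_one p).symm.trans h2) (by decide)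
      have hzero : ∀ a, a ≠ ar 2 j → a ≠ ar 2 (j + 1) → ξ a = 0 := by
        intro a h1 h2
        funext s
        by_contra h0
        exact h2 (eq_ar_of_ne (hsupp a s h0).1 h1)
      have hrel : cyc W.coeff [ar 1 k, ar 2 j, ar 0 p] * ξ (ar 2 j) (0 : Fin 2) +
          cyc W.coeff [ar 1 k, ar 2 (j + 1), ar 0 p] * ξ (ar 2 (j + 1)) (0 : Fin 2) = 0 := by
        have hb := hξ.2 (ar 1 k) (1 : Fin 2)
        have hser : ∀ a, (MM p).actSeries (fun w => W.deriv (ar 1 k) (a :: w)) (ξ a) (1 : Fin 2) =
            cyc W.coeff [ar 1 k, a, ar 0 p] * ξ a (0 : Fin 2) := by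
          intro a
          refine (MM_actSeries p _ (ξ a) 1).trans ?_
          have h4 : W.deriv (ar 1 k) [a] = 0 :=
            markov_cyc_eq_zero W (show 2 % 3 ≠ 0 by norm_num)
          rw [h4, zero_mul, zero_add]
          rfl
        rw [finsum_congr hser, finsum_eq_sum_of_fintype,
          Finset.sum_eq_add (ar 2 j) (ar 2 (j + 1)) hne] at hb
        · exact hb
        · intro a _ ha
          rw [hzero a ha.1 ha.2]
          exact mul_zero _
        · intro h
          exact absurd (Finset.mem_univ _) h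
        · intro h
          exact absurd (Finset.mem_univ _) h
      have hc : ξ (ar 2 j) (0 : Fin 2) = ξ (ar 2 (j + 1)) (0 : Fin 2) * c := by
        show _ = _ * -(_ / _)
        field_simp
        linear_combination hrel
      refine Submodule.mem_span_singleton.2 ⟨ξ (ar 2 (j + 1)) (0 : Fin 2), ?_⟩
      funext a s
      show ξ (ar 2 (j + 1)) (0 : Fin 2) * (c * bv (ar 2 j) 0 a s + bv (ar 2 (j + 1)) 0 a s) =
        ξ a s
      unfold bv
      by_cases hs : s = (0 : Fin 2)
      · subst hs
        by_cases h1 : a = ar 2 j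
        · subst h1
          rw [if_pos ⟨rfl, rfl⟩, if_neg (fun h => hne h.1), hc]
          ring
        · by_cases h2 : a = ar 2 (j + 1)
          · subst h2
            rw [if_neg (fun h => hne h.1.symm), if_pos ⟨rfl, rfl⟩]
            ring
          · rw [if_neg (fun h => h1 h.1), if_neg (fun h => h2 h.1), hzero a h1 h2]
            simp
      · have h0 : ξ a s = 0 := by
          by_contra h0
          exact hs (hsupp a s h0).2
        rw [if_neg (fun h => hs h.2), if_neg (fun h => hs h.2), h0]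
        ring
    refine (finrank_le_of_subset hsub).trans ?_
    exact (finrank_span_le_card _).trans (by simp)
  rw [MM_extDim]
  omega

theorem MM_gvec_zero (p : Fin 2) (W : Potential markov) : (DD p W).gvec 0 ≤ 1 := by
  have h := MM_extDim_zero p W
  show -((MM p).homDim 0 : ℤ) + (MM p).extDim W 0 + ((0 : ℕ) : ℤ) ≤ 1
  omega

theorem MM_gvec_two (p : Fin 2) (W : Potential markov) {k j : Fin 2}
    (hT : cyc W.coeff [ar 1 k, ar 2 j, ar 0 p] ≠ 0) :
    (DD p W).gvec 2 ≤ 1 := by
  have h := MM_extDim_two p W hT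
  show -((MM p).homDim 2 : ℤ) + (MM p).extDim W 2 + ((0 : ℕ) : ℤ) ≤ 1
  omega

end Pool.Agent.CCAlg
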