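import Mathlib
import Pool.Agent.Lib.MP_01ebeb_al.Module
import Pool.Agent.Lib.MP_01ebeb_al.Euler

/-!
# The Caldero-Chapoton function of the module
-/

noncomputable section

namespace Pool.Agent.CCAlg

/-! ## Quiver Grassmannians -/

/-- The quiver Grassmannians of the module. -/
def QQ (p : Fin 2) (e : Fin 3 → ℕ) : Set (Matrix (Fin 2) (Fin 2) ℂ) := QGr (MM p) e

theorem MM_finsum0 (p : Fin 2) (f : Fin 2 → ℂ) :
    (∑ᶠ s : {s : Fin 2 // (MM p).vert s = 0}, f s) = f 0 := by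
  refine finsum_eq_single (fun s : {s : Fin 2 // (MM p).vert s = 0} => f s) ⟨0, rfl⟩ ?_
  rintro ⟨s, hs⟩ hne
  match s, hs with
  | ⟨0, _⟩, _ => exact absurd rfl hne
  | ⟨1, _⟩, hs => exact absurd ((MM_vert_one p).symm.trans hs) (by decide)

theorem MM_finsum1 (p : Fin 2) (f : Fin 2 → ℂ) :
    (∑ᶠ s : {s : Fin 2 // (MM p).vert s = 1}, f s) = f 1 := by
  refine finsum_eq_single (fun s : {s : Fin 2 // (MM p).vert s = 1} => f s) ⟨1, rfl⟩ ?_
  rintro ⟨s, hs⟩ hne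
  match s, hs with
  | ⟨0, _⟩, hs => exact absurd ((MM_vert_zero p).symm.trans hs) (by decide)
  | ⟨1, _⟩, _ => exact absurd rfl hne

theorem MM_finsum2 (p : Fin 2) (f : Fin 2 → ℂ) :
    (∑ᶠ s : {s : Fin 2 // (MM p).vert s = 2}, f s) = 0 := by
  have : IsEmpty {s : Fin 2 // (MM p).vert s = 2} := by
    constructor
    rintro ⟨s, hs⟩
    match s, hs with
    | ⟨0, _⟩, hs => exact absurd ((MM_vert_zero p).symm.trans hs) (by decide)
    | ⟨1, _⟩, hs => exact absurd ((MM_vert_one p).symm.trans hs) (by decide)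
  exact finsum_of_isEmpty _

/-- The matrices of the arrows. -/
def mm (p : Fin 2) (a : markov.Arrow) : Matrix (Fin 2) (Fin 2) ℂ := (MM p).mat a

theorem mm_self (p : Fin 2) : mm p (a0 p) = !![0, 0; 1, 0] := MM_mat_self p

theorem mm_of_ne {p : Fin 2} {a : markov.Arrow} (h : a ≠ a0 p) : mm p a = 0 := MM_mat_of_ne h

theorem mem_QQ {p : Fin 2} {e : Fin 3 → ℕ} {P : Matrix (Fin 2) (Fin 2) ℂ} :
    P ∈ QQ p e ↔ P * P = P ∧ P.conjTranspose = P ∧
      (∀ r s : Fin 2, P r s ≠ 0 → (MM p).vert r = (MM p).vert s) ∧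
      (∀ i, (∑ᶠ s : {s : Fin 2 // (MM p).vert s = i}, P s s) = (e i : ℂ)) ∧
      ∀ a, P * mm p a * P = mm p a * P := Iff.rfl

theorem QQ_cases {p : Fin 2} {e : Fin 3 → ℕ} {P : Matrix (Fin 2) (Fin 2) ℂ} (h : P ∈ QQ p e) :
    (e = 0 ∨ e = ![0, 1, 0] ∨ e = ![1, 1, 0]) ∧ P = !![(e 0 : ℂ), 0; 0, (e 1 : ℂ)] := by
  obtain ⟨h1, -, h3, h4, h5⟩ := mem_QQ.1 h
  have p01 : P 0 1 = 0 := by
    by_contra hne
    exact absurd (h3 0 1 hne) (by rw [MM_vert_zero, MM_vert_one]; decide)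
  have p10 : P 1 0 = 0 := by
    by_contra hne
    exact absurd (h3 1 0 hne) (by rw [MM_vert_zero, MM_vert_one]; decide)
  have p00 : P 0 0 = (e 0 : ℂ) := by
    rw [← h4 0, MM_finsum0 p (fun s => P s s)]
  have p11 : P 1 1 = (e 1 : ℂ) := by
    rw [← h4 1, MM_finsum1 p (fun s => P s s)]
  have p22 : (e 2 : ℂ) = 0 := by
    rw [← h4 2, MM_finsum2 p (fun s => P s s)]
  have hP : P = !![(e 0 : ℂ), 0; 0, (e 1 : ℂ)] := by
    ext r s
    fin_cases r <;> fin_cases s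
    · exact p00
    · exact p01
    · exact p10
    · exact p11
  have q0 : (e 0) * (e 0) = e 0 := by
    have := congrFun (congrFun h1 0) 0
    rw [Matrix.mul_apply, Fin.sum_univ_two, p01, p00, zero_mul, add_zero] at this
    exact_mod_cast this
  have q1 : (e 1) * (e 1) = e 1 := by
    have := congrFun (congrFun h1 1) 1
    rw [Matrix.mul_apply, Fin.sum_univ_two, p10, p11, zero_mul, zero_add] at this
    exact_mod_cast this
  have q2 : e 2 = 0 := by exact_mod_cast p22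
  have q3 : e 1 * e 0 = e 0 := by
    have h6 : (P * (!![0, 0; 1, 0] : Matrix (Fin 2) (Fin 2) ℂ) * P) 1 0 =
        ((!![0, 0; 1, 0] : Matrix (Fin 2) (Fin 2) ℂ) * P) 1 0 := by
      have := h5 (a0 p)
      rw [mm_self] at this
      rw [this]
    rw [hP] at h6
    simp [Matrix.mul_apply] at h6
    exact_mod_cast h6
  refine ⟨?_, hP⟩
  have r0 : e 0 = 0 ∨ e 0 = 1 := by
    rcases Nat.eq_zero_or_pos (e 0) with h | h
    · exact Or.inl h
    · exact Or.inr (Nat.eq_of_mul_eq_mul_left h (by rw [q0, mul_one]))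
  have r1 : e 1 = 0 ∨ e 1 = 1 := by
    rcases Nat.eq_zero_or_pos (e 1) with h | h
    · exact Or.inl h
    · exact Or.inr (Nat.eq_of_mul_eq_mul_left h (by rw [q1, mul_one]))
  rcases r0 with r0 | r0
  · rcases r1 with r1 | r1
    · left
      funext i
      fin_cases i
      · exact r0
      · exact r1
      · exact q2
    · right; left
      funext i
      fin_cases i
      · exact r0
      · exact r1
      · exact q2
  · right; right
    rw [r0, mul_one] at q3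
    funext i
    fin_cases i
    · exact r0
    · exact q3
    · exact q2

theorem QQ_mem (p : Fin 2) (x y : ℕ) (hx : x * x = x) (hy : y * y = y) (hxy : y * x = x) :
    !![(x : ℂ), 0; 0, (y : ℂ)] ∈ QQ p ![x, y, 0] := by
  have hx' : (x : ℂ) * x = x := by exact_mod_cast hx
  have hy' : (y : ℂ) * y = y := by exact_mod_cast hy
  have hxy' : (y : ℂ) * x = x := by exact_mod_cast hxy
  refine mem_QQ.2 ⟨?_, ?_, ?_, ?_, ?_⟩
  · ext r s
    fin_cases r <;> fin_cases s <;> simp [Matrix.mul_apply, hx', hy']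
  · ext r s
    fin_cases r <;> fin_cases s <;> simp
  · intro r s
    fin_cases r <;> fin_cases s <;> simp
  · intro i
    fin_cases i
    · exact MM_finsum0 p (fun s => !![(x : ℂ), 0; 0, (y : ℂ)] s s)
    · exact MM_finsum1 p (fun s => !![(x : ℂ), 0; 0, (y : ℂ)] s s)
    · refine (MM_finsum2 p (fun s => !![(x : ℂ), 0; 0, (y : ℂ)] s s)).trans ?_
      simp
  · intro a
    by_cases ha : a = a0 p
    · subst ha
      rw [mm_self]
      ext r s
      fin_cases r <;> fin_cases s <;> simp [Matrix.mul_apply, hxy']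
    · rw [mm_of_ne ha, mul_zero, zero_mul]

theorem euler_of_elem (p : Fin 2) (e : Fin 3 → ℕ) {P : Matrix (Fin 2) (Fin 2) ℂ}
    (hP : P ∈ QQ p e) : eulerChar (QGr (MM p) e) = 1 := by
  let _ : Unique (QGr (MM p) e) :=
    { default := ⟨P, hP⟩
      uniq := by
        rintro ⟨P', hP'⟩
        apply Subtype.ext
        exact (QQ_cases hP').2.trans (QQ_cases hP).2.symm }
  exact eulerChar_unique _

theorem euler_of_not (p : Fin 2) (e : Fin 3 → ℕ)
    (h : ¬ (e = 0 ∨ e = ![0, 1, 0] ∨ e = ![1, 1, 0])) :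
    eulerChar (QGr (MM p) e) = 0 := by
  have : IsEmpty (QGr (MM p) e) := ⟨fun U => h (QQ_cases U.2).1⟩
  exact eulerChar_isEmpty _

/-- The value of the sum over the dimension vectors. -/
def FF : Amb (Fin 3) := 1 + xv 0 ^ (-2 : ℤ) * xv 2 ^ (2 : ℤ) + xv 0 ^ (-2 : ℤ) * xv 1 ^ (2 : ℤ)

theorem monom_eq (v : Fin 3 → ℤ) : monom v = xv 0 ^ v 0 * xv 1 ^ v 1 * xv 2 ^ v 2 := by
  unfold monom
  rw [Fin.prod_univ_three]

theorem cc_eq (p : Fin 2) (W : Potential markov) :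
    (DD p W).cc = (∏ i, xv i ^ (DD p W).gvec i) * FF := by
  unfold DecRep.cc
  congr 1
  have hsub : (Function.support fun e : Fin 3 → ℕ =>
      (eulerChar (QGr (MM p) e) : Amb (Fin 3)) *
        monom (markov.bmat.mulVec fun j => (e j : ℤ))) ⊆
      (({0, ![0, 1, 0], ![1, 1, 0]} : Finset (Fin 3 → ℕ)) : Set (Fin 3 → ℕ)) := by
    intro e he
    rw [Function.mem_support] at he
    by_contra hne
    apply he
    rw [euler_of_not p e, Int.cast_zero, zero_mul]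
    simpa using hne
  have m0 : !![((0 : ℕ) : ℂ), 0; 0, ((0 : ℕ) : ℂ)] ∈ QQ p 0 := by
    have := QQ_mem p 0 0 rfl rfl rfl
    have e0 : (![0, 0, 0] : Fin 3 → ℕ) = 0 := by
      funext i
      fin_cases i <;> rfl
    rwa [e0] at this
  have m1 := QQ_mem p 0 1 rfl rfl rfl
  have m2 := QQ_mem p 1 1 rfl rfl rfl
  show (∑ᶠ e : Fin 3 → ℕ, (eulerChar (QGr (MM p) e) : Amb (Fin 3)) *
    monom (markov.bmat.mulVec fun j => (e j : ℤ))) = FF
  rw [finsum_eq_sum_of_support_subset _ hsub, Finset.sum_insert, Finset.sum_insert,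
    Finset.sum_singleton, euler_of_elem p _ m0, euler_of_elem p _ m1,
    euler_of_elem p _ m2, markov_bmat, Int.cast_one, one_mul, one_mul, one_mul]
  · have e0 : (!![0, -2, 2; 2, 0, -2; -2, 2, 0] : Matrix (Fin 3) (Fin 3) ℤ).mulVec
        (fun j => (((0 : Fin 3 → ℕ) j : ℕ) : ℤ)) = ![0, 0, 0] := by decide
    have e1 : (!![0, -2, 2; 2, 0, -2; -2, 2, 0] : Matrix (Fin 3) (Fin 3) ℤ).mulVec
        (fun j => (((![0, 1, 0] : Fin 3 → ℕ) j : ℕ) : ℤ)) = ![-2, 0, 2] := by decide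
    have e2 : (!![0, -2, 2; 2, 0, -2; -2, 2, 0] : Matrix (Fin 3) (Fin 3) ℤ).mulVec
        (fun j => (((![1, 1, 0] : Fin 3 → ℕ) j : ℕ) : ℤ)) = ![-2, 2, 0] := by decide
    rw [e0, e1, e2, monom_eq, monom_eq, monom_eq]
    unfold FF
    simp only [Matrix.cons_val_zero, Matrix.cons_val_one, Matrix.cons_val, zpow_zero, mul_one]
    ring
  · decide
  · decide

theorem FF_ne_zero : FF ≠ 0 := by
  intro h
  have h1 : (xv 0 ^ 2 + xv 1 ^ 2 + xv 2 ^ 2 : Amb (Fin 3)) = 0 := by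
    have h0 : (xv 0 : Amb (Fin 3)) ≠ 0 := xv_ne_zero 0
    have h2 : (xv 0 : Amb (Fin 3)) ^ 2 * FF = 0 := by rw [h, mul_zero]
    unfold FF at h2
    have h3 : (xv 0 : Amb (Fin 3)) ^ (-2 : ℤ) = (xv 0 ^ 2)⁻¹ := by
      rw [zpow_neg]; rfl
    have h4 : (xv 2 : Amb (Fin 3)) ^ (2 : ℤ) = xv 2 ^ 2 := by norm_cast
    have h5 : (xv 1 : Amb (Fin 3)) ^ (2 : ℤ) = xv 1 ^ 2 := by norm_cast
    rw [h3, h4, h5] at h2
    field_simp at h2
    linear_combination h2
  unfold xv at h1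
  rw [← map_pow, ← map_pow, ← map_pow, ← map_add, ← map_add, IsFractionRing.to_map_eq_zero_iff] at h1
  have h2 := congrArg (MvPolynomial.eval (![1, 0, 0] : Fin 3 → ℂ)) h1
  simp at h2

theorem cc_ne_zero (p : Fin 2) (W : Potential markov) : (DD p W).cc ≠ 0 := by
  rw [cc_eq]
  refine mul_ne_zero (Finset.prod_ne_zero_iff.2 fun i _ => zpow_ne_zero _ (xv_ne_zero i)) FF_ne_zero

theorem tau_zpow (t : ℂˣ) (σ : Fin 3 → ℤˣ) (i : Fin 3) (n : ℤ) :
    tau (cs t σ) (xv i ^ n) =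
      algebraMap ℂ (Amb (Fin 3)) (((cs t σ i : ℂˣ) : ℂ) ^ n) * xv i ^ n := by
  rw [map_zpow₀, tau_xv, mul_zpow, map_zpow₀]

theorem tau_FF (t : ℂˣ) (σ : Fin 3 → ℤˣ) : tau (cs t σ) FF = FF := by
  have hsq : ∀ i, ((cs t σ i : ℂˣ) : ℂ) ^ (2 : ℤ) = (t : ℂ) ^ (2 : ℤ) := by
    intro i
    have := cs_sq t σ i
    exact_mod_cast this
  have hsq' : ∀ i, ((cs t σ i : ℂˣ) : ℂ) ^ (-2 : ℤ) = (t : ℂ) ^ (-2 : ℤ) := by
    intro i
    rw [zpow_neg, zpow_neg, hsq]
  unfold FF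
  rw [map_add, map_add, map_one, map_mul, map_mul, tau_zpow, tau_zpow, tau_zpow, hsq', hsq, hsq]
  have h1 : algebraMap ℂ (Amb (Fin 3)) ((t : ℂ) ^ (-2 : ℤ)) *
      algebraMap ℂ (Amb (Fin 3)) ((t : ℂ) ^ (2 : ℤ)) = 1 := by
    rw [← map_mul, ← zpow_add₀ t.ne_zero]
    simp
  linear_combination (xv 0 ^ (-2 : ℤ) * xv 2 ^ (2 : ℤ) + xv 0 ^ (-2 : ℤ) * xv 1 ^ (2 : ℤ)) * h1

theorem cc_weight (p : Fin 2) (W : Potential markov) (t : ℂˣ) (σ : Fin 3 → ℤˣ) :
    tau (cs t σ) (DD p W).cc =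
      algebraMap ℂ _ ((t : ℂ) ^ (∑ i, (DD p W).gvec i) *
        ∏ i, ((σ i : ℤ) : ℂ) ^ ((DD p W).gvec i)) * (DD p W).cc := by
  rw [cc_eq, map_mul, tau_FF, map_prod]
  have h1 : ∏ i, tau (cs t σ) (xv i ^ (DD p W).gvec i) =
      algebraMap ℂ (Amb (Fin 3)) (∏ i, (((cs t σ i : ℂˣ) : ℂ) ^ ((DD p W).gvec i))) *
        ∏ i, xv i ^ (DD p W).gvec i := by
    rw [map_prod, ← Finset.prod_mul_distrib]
    exact Finset.prod_congr rfl fun i _ => tau_zpow t σ i _
  have h2 : ∏ i, (((cs t σ i : ℂˣ) : ℂ) ^ ((DD p W).gvec i)) =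
      (t : ℂ) ^ (∑ i, (DD p W).gvec i) * ∏ i, ((σ i : ℤ) : ℂ) ^ ((DD p W).gvec i) := by
    rw [Fin.sum_univ_three, Fin.prod_univ_three, Fin.prod_univ_three, cs_val, cs_val, cs_val,
      mul_zpow, mul_zpow, mul_zpow, zpow_add₀ t.ne_zero, zpow_add₀ t.ne_zero]
    ring
  rw [h1, h2, mul_assoc]

/-- The Caldero-Chapoton function of the module does not lie in the cluster algebra, as soon as
the cubic part of the potential involves the arrow `(0, p)`. -/
theorem cc_not_mem (p : Fin 2) (W : Potential markov) {k j : Fin 2}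
    (hT : cyc W.coeff [ar 1 k, ar 2 j, ar 0 p] ≠ 0) :
    (DD p W).cc ∉ clusterAlgebra markov := by
  have h0 := MM_gvec_zero p W
  have h1 := MM_gvec_one p W
  have h2 := MM_gvec_two p W hT
  refine not_mem_of_weight _ (cc_ne_zero p W) (DD p W).gvec (cc_weight p W) ?_ ?_
  · rw [h1]; decide
  · rw [Fin.sum_univ_three]
    by_cases h : (DD p W).gvec 0 = 1 ∧ (DD p W).gvec 2 = 1
    · right
      refine ⟨by rw [h.1, h1, h.2]; norm_num, fun i => ?_⟩
      fin_cases i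
      · show Odd ((DD p W).gvec 0)
        rw [h.1]; decide
      · show Odd ((DD p W).gvec 1)
        rw [h1]; decide
      · show Odd ((DD p W).gvec 2)
        rw [h.2]; decide
    · left
      rcases not_and_or.1 h with h3 | h3
      · have : (DD p W).gvec 0 ≤ 0 := by omega
        rw [h1]; omega
      · have : (DD p W).gvec 2 ≤ 0 := by omega
        rw [h1]; omega

theorem ccAlgebra_ne (p : Fin 2) (W : Potential markov) {k j : Fin 2}
    (hT : cyc W.coeff [ar 1 k, ar 2 j, ar 0 p] ≠ 0) :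
    ccAlgebra markov W ≠ clusterAlgebra markov := by
  intro h
  apply cc_not_mem p W hT
  rw [← h]
  exact Algebra.subset_adjoin ⟨DD p W, rfl⟩

end Pool.Agent.CCAlg
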