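import Mathlib
import Pool.Agent.Lib.MP_01ebeb_al.Module

/-!
# Potentials of the Markov quiver without cubic part are degenerate
-/

noncomputable section

namespace Pool.Agent.CCAlg

/-! ## Rotations -/

section rotate

variable {α : Type}

theorem cyc_rotate_one (f : List α → ℂ) (w : List α) : cyc f (w.rotate 1) = cyc f w := by
  unfold cyc
  rw [List.length_rotate]
  rcases Nat.eq_zero_or_pos w.length with h | h
  · rw [h]; simp
  · obtain ⟨n, hn⟩ := Nat.exists_eq_succ_of_ne_zero h.ne'
    rw [hn, Finset.sum_range_succ, Nat.succ_eq_add_one, Finset.sum_range_succ']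
    congr 1
    · refine Finset.sum_congr rfl fun k _ => ?_
      rw [List.rotate_rotate, add_comm 1 k]
    · rw [List.rotate_rotate, add_comm 1 n, ← Nat.succ_eq_add_one, ← hn, List.rotate_length,
        List.rotate_zero]

theorem cyc_rotate (f : List α → ℂ) (w : List α) (m : ℕ) : cyc f (w.rotate m) = cyc f w := by
  induction m with
  | zero => rw [List.rotate_zero]
  | succ m ih => rw [← List.rotate_rotate, cyc_rotate_one, ih]

variable {V : Type} (Q : FinQuiver V)

theorem isPath_cons_iff {i j : V} {a : Q.Arrow} {w : List Q.Arrow} :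
    Q.IsPath i (a :: w) j ↔ Q.src a = i ∧ Q.IsPath (Q.tgt a) w j := by
  constructor
  · intro h
    cases h with
    | cons a w j h => exact ⟨rfl, h⟩
  · rintro ⟨rfl, h⟩
    exact .cons a w j h

theorem isPath_nil_iff {i j : V} : Q.IsPath i [] j ↔ i = j := by
  constructor
  · intro h
    cases h
    rfl
  · rintro rfl
    exact .nil i

theorem isPath_append {i j m : V} {u v : List Q.Arrow} (hu : Q.IsPath i u m)
    (hv : Q.IsPath m v j) : Q.IsPath i (u ++ v) j := by
  induction hu with
  | nil i => exact hv
  | cons a w m _ ih => exact .cons a _ _ (ih hv)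

theorem isCycle_rotate_one {w : List Q.Arrow} (h : Q.IsCycle w) : Q.IsCycle (w.rotate 1) := by
  obtain ⟨hne, i, hi⟩ := h
  match w, hne, hi with
  | a :: u, _, hi =>
    have h1 : (a :: u).rotate 1 = u ++ [a] := by simp
    rw [h1]
    rw [isPath_cons_iff] at hi
    refine ⟨by simp, Q.tgt a, isPath_append Q hi.2 ?_⟩
    rw [isPath_cons_iff]
    exact ⟨hi.1, .nil _⟩

theorem isCycle_rotate {w : List Q.Arrow} (h : Q.IsCycle w) (n : ℕ) : Q.IsCycle (w.rotate n) := by
  induction n with
  | zero => rwa [List.rotate_zero]
  | succ n ih => rw [← List.rotate_rotate]; exact isCycle_rotate_one Q ih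

theorem isCycle_of_cyc (W : Potential Q) {w : List Q.Arrow}
    (h : cyc W.coeff w ≠ 0) : Q.IsCycle w := by
  obtain ⟨k, hk, hne⟩ := Finset.exists_ne_zero_of_sum_ne_zero h
  rw [Finset.mem_range] at hk
  have h1 := isCycle_rotate Q (W.isCycle _ hne) (w.length - k)
  rw [List.rotate_rotate, Nat.add_sub_cancel' hk.le, List.rotate_length] at h1
  exact h1

end rotate

/-! ## The potential without cycles starting at the vertex `0` -/

/-- Is the word nonempty and does its first arrow not start at `0`? -/
def indN : List markov.Arrow → ℕ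
  | [] => 0
  | a :: _ => if a.1 = (0 : Fin 3) then 0 else 1

theorem cyc_indN_ne_zero {w : List markov.Arrow} (hw : markov.IsCycle w) :
    cyc (fun u => (indN u : ℂ)) w ≠ 0 := by
  intro h
  unfold cyc at h
  rw [← Nat.cast_sum, Nat.cast_eq_zero, Finset.sum_eq_zero_iff] at h
  obtain ⟨hne, i, hi⟩ := hw
  match w, hne, hi, h with
  | [a], _, hi, _ =>
    have h1 := markov_isPath hi
    have h2 := i.isLt
    simp only [List.length_singleton] at h1
    omega
  | a :: b :: u, _, hi, h =>
    have h0 := h 0 (by simp)
    have h1 := h 1 (by simp)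
    have e1 : (a :: b :: u).rotate 1 = b :: (u ++ [a]) := by simp
    rw [List.rotate_zero] at h0
    rw [e1] at h1
    have h0' : (if a.1 = (0 : Fin 3) then 0 else 1) = 0 := h0
    have h1' : (if b.1 = (0 : Fin 3) then 0 else 1) = 0 := h1
    have ha : a.1 = (0 : Fin 3) := by
      by_contra hne
      rw [if_neg hne] at h0'
      exact one_ne_zero h0'
    have hb : b.1 = (0 : Fin 3) := by
      by_contra hne
      rw [if_neg hne] at h1'
      exact one_ne_zero h1'
    rw [isPath_cons_iff, isPath_cons_iff] at hi
    have h3 : b.1 = (a.1 : Fin 3) + 1 := hi.2.1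
    rw [ha, hb] at h3
    exact absurd h3 (by decide)

/-- A potential which is cyclically equivalent to `W` and none of whose cycles starts at `0`. -/
def W0 (W : Potential markov) : Potential markov where
  coeff w := (indN w : ℂ) * (cyc W.coeff w / cyc (fun u => (indN u : ℂ)) w)
  isCycle w h := by
    apply isCycle_of_cyc markov W
    intro h0
    apply h
    rw [h0, zero_div, mul_zero]

theorem W0_cycEquiv (W : Potential markov) : CycEquiv (W0 W).coeff W.coeff := by
  intro w
  have h1 : cyc (W0 W).coeff w = cyc (fun u => (indN u : ℂ)) w *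
      (cyc W.coeff w / cyc (fun u => (indN u : ℂ)) w) := by
    unfold cyc
    rw [Finset.sum_mul]
    refine Finset.sum_congr rfl fun k _ => ?_
    show (indN (w.rotate k) : ℂ) * (cyc W.coeff (w.rotate k) /
      cyc (fun u => (indN u : ℂ)) (w.rotate k)) = _
    rw [cyc_rotate, cyc_rotate]
    rfl
  rw [h1]
  by_cases h : cyc W.coeff w = 0
  · rw [h, zero_div, mul_zero]
  · rw [mul_div_cancel₀]
    exact cyc_indN_ne_zero (isCycle_of_cyc markov W h)

theorem W0_start (W : Potential markov) (a : markov.Arrow) (u : List markov.Arrow)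
    (h : (W0 W).coeff (a :: u) ≠ 0) : markov.src a ≠ 0 := by
  intro ha
  apply h
  have h1 : indN (a :: u) = 0 := if_pos ha
  show (indN (a :: u) : ℂ) * _ = 0
  rw [h1, Nat.cast_zero, zero_mul]

theorem cyc_three (W : Potential markov)
    (hT : ∀ k j i, cyc W.coeff [ar 1 k, ar 2 j, ar 0 i] = 0) {w : List markov.Arrow}
    (hw : w.length = 3) : cyc W.coeff w = 0 := by
  by_contra hne
  obtain ⟨_, i, hi⟩ := isCycle_of_cyc markov W hne
  obtain ⟨a, b, c, rfl⟩ := List.length_eq_three.1 hw
  obtain ⟨s, p⟩ := a
  obtain ⟨s', q⟩ := b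
  obtain ⟨s'', r⟩ := c
  rw [isPath_cons_iff, isPath_cons_iff, isPath_cons_iff] at hi
  have h1 : s' = s + 1 := hi.2.1
  have h2 : s'' = s' + 1 := hi.2.2.1
  subst h1
  subst h2
  fin_cases s
  · apply hne
    rw [← cyc_rotate_one]
    exact hT q r p
  · apply hne
    exact hT p q r
  · apply hne
    rw [← cyc_rotate _ _ 2]
    exact hT r p q

theorem W0_short (W : Potential markov)
    (hT : ∀ k j i, cyc W.coeff [ar 1 k, ar 2 j, ar 0 i] = 0) {w : List markov.Arrow}
    (hw : w.length ≤ 4) : (W0 W).coeff w = 0 := by
  have h : cyc W.coeff w = 0 := by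
    by_cases h3 : w.length % 3 = 0
    · by_cases h0 : w.length = 0
      · unfold cyc
        rw [h0]
        rfl
      · exact cyc_three W hT (by omega)
    · exact markov_cyc_eq_zero W h3
  show (indN w : ℂ) * (cyc W.coeff w / _) = 0
  rw [h, zero_div, mul_zero]

/-! ## The premutation -/

section pre

variable {V : Type}

theorem pre_cons {Q : FinQuiver V} {k i j : V} (x : PreArrow Q k) (w : List (PreArrow Q k))
    (h : x.start = i) (h2 : (preQuiver Q k).IsPath x.stop w j) :
    (preQuiver Q k).IsPath i (x :: w) j :=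
  (isPath_cons_iff (preQuiver Q k)).2 ⟨h, h2⟩

theorem isPath_of_word {Q : FinQuiver V} {k : V} {w : List (PreArrow Q k)}
    (hs : ¬ ∃ a h, PreArrow.star a h ∈ w) {i j : V} (hp : Q.IsPath i (w.flatMap PreArrow.word) j) :
    (preQuiver Q k).IsPath i w j := by
  induction w generalizing i with
  | nil =>
    have h1 := (isPath_nil_iff Q).1 hp
    rw [h1]
    exact .nil _
  | cons x w ih =>
    have hs' : ¬ ∃ a h, PreArrow.star a h ∈ w := by
      rintro ⟨a, h, hm⟩
      exact hs ⟨a, h, List.mem_cons_of_mem _ hm⟩
    rw [List.flatMap_cons] at hp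
    cases x with
    | keep a h =>
      have hp' : Q.IsPath i (a :: w.flatMap PreArrow.word) j := hp
      rw [isPath_cons_iff] at hp'
      exact pre_cons _ _ hp'.1 (ih hs' hp'.2)
    | comp a b ha hb =>
      have hp' : Q.IsPath i (a :: b :: w.flatMap PreArrow.word) j := hp
      rw [isPath_cons_iff, isPath_cons_iff] at hp'
      exact pre_cons _ _ hp'.1 (ih hs' hp'.2.2)
    | star a h => exact absurd ⟨a, h, List.mem_cons_self⟩ hs

theorem length_word {Q : FinQuiver V} {k : V} (x : PreArrow Q k) :
    x.word.length ≤ 2 := by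
  cases x <;> simp [PreArrow.word]

theorem length_flatMap {Q : FinQuiver V} {k : V} (w : List (PreArrow Q k)) :
    (w.flatMap PreArrow.word).length ≤ 2 * w.length := by
  induction w with
  | nil => simp
  | cons x w ih =>
    have := length_word x
    simp only [List.flatMap_cons, List.length_append, List.length_cons]
    omega

theorem isCycle_of_preCoeff (Q : FinQuiver V) (k : V) (W₀ : Potential Q)
    (w : List (PreArrow Q k)) (hw : preCoeff Q k W₀ w ≠ 0) : (preQuiver Q k).IsCycle w := by
  by_cases h : ∃ a b ha hb, w = [PreArrow.comp a b ha hb, PreArrow.star b (Or.inl hb),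
    PreArrow.star a (Or.inr ha)]
  · obtain ⟨a, b, ha, hb, rfl⟩ := h
    refine ⟨List.cons_ne_nil _ _, Q.src a, ?_⟩
    refine pre_cons _ _ rfl (pre_cons _ _ rfl (pre_cons _ _ ?_ (.nil _)))
    show Q.tgt a = Q.src b
    rw [ha, hb]
  · unfold preCoeff at hw
    rw [if_neg h, add_zero] at hw
    by_cases h2 : ∃ a h, PreArrow.star a h ∈ w
    · rw [if_pos h2] at hw
      exact absurd rfl hw
    · rw [if_neg h2] at hw
      obtain ⟨hne, i, hi⟩ := W₀.isCycle _ hw
      refine ⟨?_, i, isPath_of_word h2 hi⟩
      rintro rfl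
      exact hne rfl

theorem preCoeff_short (Q : FinQuiver V) (k : V) (W₀ : Potential Q)
    (h : ∀ u : List Q.Arrow, u.length ≤ 4 → W₀.coeff u = 0) (v : List (PreArrow Q k))
    (hlen : v.length ≤ 2) : preCoeff Q k W₀ v = 0 := by
  unfold preCoeff
  have h1 : ¬ ∃ a b ha hb, v = [PreArrow.comp a b ha hb, PreArrow.star b (Or.inl hb),
      PreArrow.star a (Or.inr ha)] := by
    rintro ⟨a, b, ha, hb, rfl⟩
    simp at hlen
  rw [if_neg h1, add_zero, h _ ((length_flatMap v).trans (by omega)), ite_self]

/-- The potential of the premutation. -/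
def preW (Q : FinQuiver V) (k : V) (W₀ : Potential Q) : Potential (preQuiver Q k) where
  coeff := preCoeff Q k W₀
  isCycle := isCycle_of_preCoeff Q k W₀

theorem preW_reduced (Q : FinQuiver V) (k : V) (W₀ : Potential Q)
    (h : ∀ u : List Q.Arrow, u.length ≤ 4 → W₀.coeff u = 0) :
    QP.Reduced ⟨preQuiver Q k, preW Q k W₀⟩ := by
  intro w hw
  unfold cyc
  refine Finset.sum_eq_zero fun m _ => ?_
  have hlen : (w.rotate m).length ≤ 2 := (List.length_rotate w m).le.trans hw
  exact preCoeff_short Q k W₀ h (w.rotate m) hlen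

end pre

/-! ## A reduced quiver with potential is its own reduced part -/

section red

variable {V : Type}

/-- The empty quiver. -/
def emptyQuiver (V : Type) : FinQuiver V where
  Arrow := Empty
  finite := inferInstance
  src := Empty.elim
  tgt := Empty.elim

/-- The trivial quiver with potential without arrows. -/
def emptyQP (V : Type) : QP V where
  quiver := emptyQuiver V
  pot :=
    { coeff := fun _ => 0
      isCycle := fun _ h => absurd rfl h }

theorem emptyQP_trivial : (emptyQP V).Trivial := by
  refine ⟨fun w h => absurd rfl h, ?_⟩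
  have : IsEmpty (emptyQP V).quiver.Arrow := inferInstanceAs (IsEmpty Empty)
  exact Subsingleton.elim _ _

theorem delta_self {α : Type} (u : List α) : delta u u = 1 := if_pos rfl

theorem delta_of_ne {α : Type} {u w : List α} (h : w ≠ u) : delta u w = 0 := if_neg h

theorem conv_delta {α : Type} (a : α) (u w : List α) :
    conv (delta [a]) (delta u) w = delta (a :: u) w := by
  unfold conv
  match w with
  | [] =>
    rw [delta_of_ne (List.cons_ne_nil a u).symm]
    refine Finset.sum_eq_zero fun k _ => ?_
    rw [List.take_nil, delta_of_ne (List.cons_ne_nil a []).symm, zero_mul]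
  | b :: v =>
    rw [Finset.sum_eq_single 1]
    · rw [List.take_succ_cons, List.take_zero, List.drop_succ_cons, List.drop_zero]
      by_cases h1 : b = a
      · subst h1
        by_cases h2 : v = u
        · subst h2
          rw [delta_self, delta_self, delta_self, mul_one]
        · rw [delta_of_ne h2, delta_of_ne (u := b :: u), mul_zero]
          intro h
          exact h2 (List.cons.inj h).2
      · rw [delta_of_ne (u := [a]), delta_of_ne (u := a :: u), zero_mul]
        · intro h
          exact h1 (List.cons.inj h).1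
        · intro h
          exact h1 (List.cons.inj h).1
    · intro k hk hk1
      rw [delta_of_ne (u := [a]), zero_mul]
      intro h
      have h2 := congrArg List.length h
      rw [List.length_take] at h2
      simp only [List.length_cons, List.length_nil] at h2
      rw [Finset.mem_range] at hk
      simp only [List.length_cons] at hk
      omega
    · intro h
      exfalso
      apply h
      simp

theorem onWord_of_map {Q Q' : FinQuiver V} (φ : PathHom Q Q') (g : Q.Arrow → Q'.Arrow)
    (hg : ∀ a, φ.img a = delta [g a]) (u : List Q.Arrow) :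
    φ.onWord u = delta (u.map g) := by
  induction u with
  | nil => rfl
  | cons a u ih =>
    show conv (φ.img a) (φ.onWord u) = _
    rw [ih, hg]
    funext w
    exact conv_delta _ _ _

theorem onSeries_of_map {Q Q' : FinQuiver V} (φ : PathHom Q Q') (g : Q.Arrow → Q'.Arrow)
    (hg : ∀ a, φ.img a = delta [g a]) (hinj : Function.Injective g)
    (f : List Q.Arrow → ℂ) (u : List Q.Arrow) : φ.onSeries f (u.map g) = f u := by
  unfold PathHom.onSeries
  rw [finsum_eq_single _ u]
  · rw [onWord_of_map φ g hg, delta_self, mul_one]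
  · intro v hv
    rw [onWord_of_map φ g hg, delta_of_ne, mul_zero]
    intro h
    exact hv ((List.map_injective_iff.2 hinj) h.symm)

/-- The homomorphism of completed path algebras given by a map between the arrows. -/
def homOfMap {Q Q' : FinQuiver V} (g : Q.Arrow → Q'.Arrow) (hs : ∀ a, Q'.src (g a) = Q.src a)
    (ht : ∀ a, Q'.tgt (g a) = Q.tgt a) : PathHom Q Q' where
  img := fun a => delta [g a]
  imgPath := by
    intro a w hw
    by_cases h : w = [g a]
    · subst h
      refine ⟨List.cons_ne_nil _ _, ?_⟩
      rw [isPath_cons_iff]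
      refine ⟨hs a, ?_⟩
      rw [ht a]
      exact .nil _
    · rw [delta_of_ne h] at hw
      exact absurd rfl hw

theorem rightEquiv_of_bij (P P' : QP V) (g : P.quiver.Arrow → P'.quiver.Arrow)
    (g' : P'.quiver.Arrow → P.quiver.Arrow) (h1 : ∀ a, g' (g a) = a) (h2 : ∀ a, g (g' a) = a)
    (hs : ∀ a, P'.quiver.src (g a) = P.quiver.src a)
    (ht : ∀ a, P'.quiver.tgt (g a) = P.quiver.tgt a)
    (hW : ∀ u, P'.pot.coeff (u.map g) = P.pot.coeff u) : RightEquiv P P' := by
  have hinj : Function.Injective g := Function.LeftInverse.injective h1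
  have hinj' : Function.Injective g' := Function.LeftInverse.injective h2
  have e1 : ∀ u : List P.quiver.Arrow, (u.map g).map g' = u := by
    intro u
    rw [List.map_map]
    conv_rhs => rw [← List.map_id u]
    exact List.map_congr_left fun a _ => h1 a
  have e2 : ∀ u : List P'.quiver.Arrow, (u.map g').map g = u := by
    intro u
    rw [List.map_map]
    conv_rhs => rw [← List.map_id u]
    exact List.map_congr_left fun a _ => h2 a
  refine ⟨homOfMap g hs ht, homOfMap g' (fun a => by rw [← hs, h2]) (fun a => by rw [← ht, h2]),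
    ?_, ?_, ?_⟩
  · intro a
    funext w
    conv_lhs => rw [← e1 w]
    rw [onSeries_of_map _ g' (fun _ => rfl) hinj']
    show delta [g a] (w.map g) = _
    by_cases h : w = [a]
    · subst h
      rw [delta_self]
      exact delta_self _
    · rw [delta_of_ne h, delta_of_ne]
      intro h3
      have h4 := congrArg (List.map g') h3
      rw [e1] at h4
      apply h
      rw [h4]
      simp [h1]
  · intro a
    funext w
    conv_lhs => rw [← e2 w]
    rw [onSeries_of_map _ g (fun _ => rfl) hinj]
    show delta [g' a] (w.map g') = _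
    by_cases h : w = [a]
    · subst h
      rw [delta_self]
      exact delta_self _
    · rw [delta_of_ne h, delta_of_ne]
      intro h3
      have h4 := congrArg (List.map g) h3
      rw [e2] at h4
      apply h
      rw [h4]
      simp [h2]
  · have key : (homOfMap g hs ht).onSeries P.pot.coeff = P'.pot.coeff := by
      funext w
      rw [← e2 w, onSeries_of_map _ g (fun _ => rfl) hinj, hW]
    rw [key]
    intro w
    rfl

theorem sumCoeff_inl {α β : Type} (f : List α → ℂ) (u : List α) :
    sumCoeff f (fun _ : List β => 0) (u.map Sum.inl) = f u := by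
  have h1 : (u.map (Sum.inl : α → α ⊕ β)).filterMap Sum.getLeft? = u := by
    rw [List.filterMap_map]
    exact List.filterMap_some
  unfold sumCoeff
  rw [h1, if_pos rfl, ite_self, add_zero]

theorem isReducedPart_self (P : QP V) (h : P.Reduced) : P.IsReducedPart P := by
  refine ⟨h, emptyQP V, emptyQP_trivial, ?_⟩
  refine rightEquiv_of_bij P (P.dsum (emptyQP V))
    (Sum.inl : P.quiver.Arrow → P.quiver.Arrow ⊕ (emptyQP V).quiver.Arrow)
    (Sum.elim id Empty.elim : P.quiver.Arrow ⊕ (emptyQP V).quiver.Arrow → P.quiver.Arrow)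
    (fun _ => rfl) ?_ (fun _ => rfl) (fun _ => rfl) (sumCoeff_inl P.pot.coeff)
  rintro (a | a)
  · rfl
  · exact a.elim

end red

/-! ## Degeneracy -/

theorem not_nondegenerate (W : Potential markov)
    (hT : ∀ k j i, cyc W.coeff [ar 1 k, ar 2 j, ar 0 i] = 0) :
    ¬ QP.Nondegenerate ⟨markov, W⟩ := by
  intro hnd
  have hmut : QP.Mutates ⟨markov, W⟩ 0 ⟨preQuiver markov 0, preW markov 0 (W0 W)⟩ :=
    ⟨W0 W, W0_cycEquiv W, W0_start W, preW markov 0 (W0 W), rfl,
      isReducedPart_self _ (preW_reduced markov 0 (W0 W) fun u hu => W0_short W hT hu)⟩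
  have h2 := (hnd _ (QPReach.step _ _ 0 QPReach.refl hmut)).2
  refine h2 (PreArrow.comp (ar 2 0) (ar 0 0) ?_ rfl) (PreArrow.keep (ar 1 0) ?_) ⟨?_, ?_⟩
  · show (2 : Fin 3) + 1 = 0
    decide
  · refine ⟨?_, ?_⟩
    · show (1 : Fin 3) ≠ 0
      decide
    · show (1 : Fin 3) + 1 ≠ 0
      decide
  · rfl
  · rfl

end Pool.Agent.CCAlg
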